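import Mathlib.LinearAlgebra.FiniteDimensional.Defs
import Mathlib.Analysis.Normed.Operator.Basic

/-! Definitions used in the statements. -/

open Cardinal Ordinal

namespace Pool.Agent.MP_57b808_an

universe u v

/-- The density character: the least cardinality of a dense subset. -/
noncomputable def dens (X : Type u) [TopologicalSpace X] : Cardinal.{u} :=
  ⨅ S : {S : Set X // Dense S}, #S.1

/-- Strong Gurarii property: for finite-dimensional `E ⊆ F`, every linear isometric embedding
of `E` into `X` extends to a linear isometric embedding of `F` into `X`. -/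
def StrongGurarii (X : Type u) [NormedAddCommGroup X] [NormedSpace ℝ X] : Prop :=
  ∀ (F : Type v) [NormedAddCommGroup F] [NormedSpace ℝ F] [FiniteDimensional ℝ F]
    (E : Submodule ℝ F) (f : E →ₗᵢ[ℝ] X), ∃ g : F →ₗᵢ[ℝ] X, ∀ e : E, g e = f e

/-- `Y` is non-separable and has a projectional resolution of the identity, indexed by the
ordinals from `ω` to the initial ordinal of the density of `Y`. -/
def HasPRI (Y : Type u) [NormedAddCommGroup Y] [NormedSpace ℝ Y] : Prop :=
  ℵ₀ < dens Y ∧ ∃ P : Ordinal.{u} → Y →L[ℝ] Y,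
    P ω = 0 ∧ P (dens Y).ord = ContinuousLinearMap.id ℝ Y ∧
    (∀ α, ω < α → α ≤ (dens Y).ord → ‖P α‖ = 1) ∧
    (∀ α β, ω ≤ α → α ≤ (dens Y).ord → ω ≤ β → β ≤ (dens Y).ord →
      (P α).comp (P β) = P (min α β)) ∧
    (∀ α, ω ≤ α → α ≤ (dens Y).ord → dens (Set.range (P α)) ≤ α.card) ∧
    (∀ α, ω < α → α ≤ (dens Y).ord → Order.IsSuccLimit α →
      closure (⋃ β ∈ Set.Ico ω α, Set.range (P (β + 1))) = Set.range (P α))

end Pool.Agent.MP_57b808_an
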