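import Mathlib.LinearAlgebra.FreeModule.PID
import Mathlib.CategoryTheory.Countable
import Mathlib.Topology.Sheaves.Presheaf
import Mathlib.Tactic.Monotonicity.Lemmas
import Mathlib.RingTheory.Flat.TorsionFree
import Mathlib.Algebra.Order.Ring.Star
import Mathlib.Algebra.Module.StablyFree.Basic
import Mathlib.Combinatorics.Matroid.Basic
import Mathlib.MeasureTheory.Constructions.BorelSpace.Metrizable
import Mathlib.Analysis.Normed.Module.FiniteDimension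
import Mathlib.Topology.ContinuousMap.Bounded.Normed
import Mathlib.Analysis.InnerProductSpace.Basic
import Mathlib.Algebra.Order.Archimedean.Real.Hom
import Mathlib.Algebra.Order.Star.Real
import Mathlib.Analysis.Real.Cardinality
import Mathlib.Analysis.LocallyConvex.SeparatingDual
import Mathlib.Analysis.Normed.Module.HahnBanach
import Mathlib.Combinatorics.SimpleGraph.Basic
import Mathlib.Data.Rat.Denumerable
import Mathlib.MeasureTheory.MeasurableSpace.Card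
import Mathlib.RingTheory.SimpleRing.Principal
import Mathlib.Order.CompletePartialOrder
import Pool.Agent.MP_57b808_an.Defs

-- ======== part 0: formerly Pool.Agent.MP_57b808_an.Basic
section MrgPart0

/-! Recursive choice, cardinal arithmetic and a long scale. -/

open Set
open Cardinal hiding univ

namespace Pool.Agent.MP_57b808_an

universe u

theorem rec_choice {ι T : Type*} [LinearOrder ι] [WellFoundedLT ι] [Nonempty T]
    (P : ι → (ι → T) → T → Prop)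
    (hloc : ∀ α e e' g, (∀ β < α, e β = e' β) → P α e g → P α e' g)
    (hstep : ∀ α e, (∀ β < α, P β e (e β)) → ∃ g, P α e g) : ∃ e, ∀ α, P α e (e α) := by
  classical
  let t0 : T := Classical.arbitrary T
  let F : ∀ α : ι, (∀ β, β < α → T) → T := fun α ih =>
    Classical.epsilon (P α (fun β => if h : β < α then ih β h else t0))
  let e : ι → T := (wellFounded_lt (α := ι)).fix F
  have he : ∀ α, e α = Classical.epsilon (P α (fun β => if β < α then e β else t0)) := by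
    intro α
    have := (wellFounded_lt (α := ι)).fix_eq F α
    simpa [F] using this
  refine ⟨e, fun α => ?_⟩
  induction α using WellFoundedLT.induction with
  | ind α ih =>
    obtain ⟨g, hg⟩ := hstep α e ih
    have h1 : P α (fun β => if β < α then e β else t0) g :=
      hloc α e _ g (fun β hβ => by simp [hβ]) hg
    have h2 := Classical.epsilon_spec ⟨g, h1⟩
    rw [← he] at h2
    exact hloc α _ e _ (fun β hβ => by simp [hβ]) h2

/-- Downward induction along a well order. -/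
theorem down_ind {Ω : Type*} [LinearOrder Ω] [WellFoundedLT Ω] [SuccOrder Ω] [NoMaxOrder Ω]
    (P : Ω → Prop) (γ : Ω) (h0 : ∃ α, γ ≤ α ∧ P α)
    (hs : ∀ α, γ ≤ α → P (Order.succ α) → P α)
    (hl : ∀ α, γ < α → Order.IsSuccPrelimit α → P α → ∃ β, γ ≤ β ∧ β < α ∧ P β) : P γ := by
  obtain ⟨α, ⟨hα, hP⟩, hmin⟩ := (wellFounded_lt (α := Ω)).has_min {α | γ ≤ α ∧ P α} h0
  rcases hα.eq_or_lt with rfl | hlt
  · exact hP
  exfalso
  by_cases hlim : Order.IsSuccPrelimit α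
  · obtain ⟨β, h1, h2, h3⟩ := hl α hlt hlim hP
    exact hmin β ⟨h1, h3⟩ h2
  · obtain ⟨β, hβ⟩ := Order.not_isSuccPrelimit_iff.1 hlim
    obtain rfl := hβ.succ_eq
    have h1 : γ ≤ β := Order.le_of_lt_succ hlt
    exact hmin β ⟨h1, hs β h1 hP⟩ (Order.lt_succ β)

/-- countable subsets are bounded -/
class Cb (Λ : Type u) [LinearOrder Λ] : Prop where
  bdd : ∀ S : Set Λ, S.Countable → ∃ b, ∀ s ∈ S, s < b

theorem cb_nonempty (Λ : Type u) [LinearOrder Λ] [Cb Λ] : Nonempty Λ :=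
  ⟨(Cb.bdd (∅ : Set Λ) countable_empty).choose⟩

theorem exists_bound_nat {Λ : Type u} [LinearOrder Λ] [Cb Λ] (ρ : ℕ → Λ) : ∃ b, ∀ n, ρ n < b := by
  obtain ⟨b, hb⟩ := Cb.bdd _ (countable_range ρ)
  exact ⟨b, fun n => hb _ (mem_range_self n)⟩

theorem exists_surj {M T : Type u} [Nonempty T] (h : #T ≤ #M) :
    ∃ σ : M → T, Function.Surjective σ := by
  obtain ⟨f⟩ := (le_def _ _).1 h
  exact ⟨Function.invFun f, Function.invFun_surjective f.injective⟩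

theorem exists_code {M T T' : Type u} [Nonempty T] (f : T → T') (h : #T' ≤ #M) :
    ∃ code : M → T, ∀ a, ∃ τ, f (code τ) = f a := by
  have : Nonempty (range f) := (range_nonempty f).to_subtype
  obtain ⟨σ, hσ⟩ := exists_surj (M := M) (T := range f) ((mk_set_le _).trans h)
  choose c hc using fun τ => (σ τ).2
  refine ⟨c, fun a => ?_⟩
  obtain ⟨τ, hτ⟩ := hσ ⟨f a, mem_range_self a⟩
  exact ⟨τ, by rw [hc, hτ]⟩

/-- an infinite cardinal that equals its countable power -/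
structure Om (μ : Cardinal.{u}) : Prop where
  inf : ℵ₀ ≤ μ
  pow : μ ^ ℵ₀ ≤ μ

namespace Om
variable {μ : Cardinal.{u}} (H : Om μ)
include H

theorem mul {a b : Cardinal.{u}} (ha : a ≤ μ) (hb : b ≤ μ) : a * b ≤ μ :=
  (mul_le_mul' ha hb).trans (mul_eq_self H.inf).le

theorem sum {ι : Type u} (hι : #ι ≤ μ) {f : ι → Cardinal.{u}} (h : ∀ i, f i ≤ μ) :
    Cardinal.sum f ≤ μ := by
  refine (sum_le_sum f (fun _ => μ) h).trans ?_
  rw [sum_const']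
  exact H.mul hι le_rfl

theorem pw {a : Cardinal.{u}} (h : a ≤ μ) : a ^ ℵ₀ ≤ μ := (power_le_power_right h).trans H.pow

theorem two : 2 ≤ μ := (natCast_le_aleph0.trans H.inf : ((2 : ℕ) : Cardinal) ≤ _)

theorem seq {A : Type u} (h : #A ≤ μ) : #(ℕ → A) ≤ μ := by simpa using H.pw h

theorem real : lift.{u} #ℝ ≤ μ := by simpa [mk_real] using H.pw H.two

theorem finsupp {Γ : Type u} (h : #Γ ≤ μ) : #(Γ →₀ ℝ) ≤ μ := by
  rcases isEmpty_or_nonempty Γ with hΓ | hΓ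
  · simpa using one_le_aleph0.trans H.inf
  · rw [mk_finsupp_lift_of_infinite']
    exact max_le (by simpa using h) H.real

theorem span {V : Type u} [AddCommGroup V] [Module ℝ V] {S : Set V} (h : #S ≤ μ) :
    #(Submodule.span ℝ S) ≤ μ := by
  rw [Finsupp.span_eq_range_linearCombination]
  exact mk_range_le.trans (H.finsupp h)

theorem closure {X : Type u} [MetricSpace X] {S : Set X} (h : #S ≤ μ) : #(closure S) ≤ μ := by
  rcases isEmpty_or_nonempty X with hX | hX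
  · simp
  have : _root_.closure S ⊆ range fun f : ℕ → S => Filter.limUnder Filter.atTop fun n => (f n : X) := by
    intro x hx
    obtain ⟨f, hf, hl⟩ := mem_closure_iff_seq_limit.1 hx
    exact ⟨fun n => ⟨f n, hf n⟩, hl.limUnder_eq⟩
  exact (mk_le_mk_of_subset this).trans (mk_range_le.trans (H.seq h))

end Om

theorem iic_succ {c : Cardinal.{u}} (hc : ℵ₀ ≤ c) (j : (Order.succ c).ord.ToType) :
    #(Iic j) ≤ c := by
  rw [← Order.lt_succ_iff]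
  exact (mk_Iic_lt j (by simp) (by simpa using hc.trans (Order.le_succ c))).trans_eq
    (mk_ord_toType _)

theorem bdd_succ {c : Cardinal.{u}} (hc : ℵ₀ ≤ c) (S : Set (Order.succ c).ord.ToType)
    (h : #S ≤ c) : ∃ b, ∀ s ∈ S, s < b := by
  by_contra hb
  push Not at hb
  have h1 : (univ : Set (Order.succ c).ord.ToType) ⊆ ⋃ s : S, Iic s.1 := by
    intro b _
    obtain ⟨s, hs, hle⟩ := hb b
    exact mem_iUnion.2 ⟨⟨s, hs⟩, hle⟩
  have h2 := (mk_le_mk_of_subset h1).trans (mk_iUnion_le_sum_mk.trans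
    (sum_le_sum _ (fun _ => c) fun s => iic_succ hc _))
  rw [sum_const', mk_univ, mk_ord_toType] at h2
  exact (Order.lt_succ c).not_ge (h2.trans ((mul_le_mul' h le_rfl).trans (mul_eq_self hc).le))

/-- A scale of length `μ⁺` in a product of small orders, where `μ` is a strong limit cardinal of
uncountable cofinality. -/
theorem exists_scale : ∃ (μ : Cardinal.{u}) (Λ : Type u) (_ : LinearOrder Λ)
    (_ : WellFoundedLT Λ) (_ : Cb Λ) (Θ : Λ → Type u) (_ : ∀ i, LinearOrder (Θ i))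
    (_ : ∀ i, SuccOrder (Θ i)) (_ : ∀ i, NoMaxOrder (Θ i))
    (f : (Order.succ μ).ord.ToType → ∀ i, Θ i), Om μ ∧ ℵ₀ < μ ∧ #Λ ≤ μ ∧
    (∀ ρ, ∃ ν, ℵ₀ ≤ ν ∧ 2 ^ ν ≤ μ ∧ #{p : Σ i, Θ i | p.1 ≤ ρ} ≤ ν) ∧
    ∀ γ δ, γ < δ → ∃ ρ, ∀ i, ρ < i → f γ i < f δ i := by
  let Λ := (Order.succ ℵ₀ : Cardinal.{u}).ord.ToType
  have hΛ : Cb Λ := ⟨fun S hS => bdd_succ le_rfl S (le_aleph0_iff_set_countable.2 hS)⟩
  have hI : ∀ i : Λ, #(Iic i) ≤ ℵ₀ := iic_succ le_rfl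
  let c : Λ → Cardinal.{u} := fun i => ℶ_ (Ordinal.typein (α := Λ) (· < ·) i)
  have c1 : ∀ i, ℵ₀ ≤ c i := fun i => aleph0_le_beth _
  have c2 : ∀ i j, i < j → 2 ^ c i ≤ c j := fun i j h => by
    rw [← beth_succ]
    exact beth_mono (Order.succ_le_of_lt ((Ordinal.typein_lt_typein _).2 h))
  have c3 : ∀ i j, i ≤ j → c i ≤ c j := fun i j h =>
    h.eq_or_lt.elim (fun e => e ▸ le_rfl) fun h => (cantor _).le.trans (c2 i j h)
  have c4 : ∀ i : Λ, ∃ j, i < j := fun i => (exists_bound_nat fun _ => i).imp fun j hj => hj 0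
  have hsig : ∀ (B : Λ → Type u) (ρ : Λ) (ν : Cardinal.{u}), ℵ₀ ≤ ν → (∀ i ≤ ρ, #(B i) ≤ ν) →
      #{p : Σ i, B i | p.1 ≤ ρ} ≤ ν := by
    intro B ρ ν hν h
    have : {p : Σ i, B i | p.1 ≤ ρ} ⊆ ⋃ i : Iic ρ, range (Sigma.mk i.1) :=
      fun p hp => mem_iUnion.2 ⟨⟨p.1, hp⟩, p.2, rfl⟩
    refine (mk_le_mk_of_subset this).trans (mk_iUnion_le_sum_mk.trans ((sum_le_sum _ (fun _ => ν)
      fun i => mk_range_le.trans (h _ i.2)).trans ?_))
    rw [sum_const']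
    exact (mul_le_mul' ((hI ρ).trans hν) le_rfl).trans (mul_eq_self hν).le
  let M := Σ i : Λ, (c i).out
  have m1 : ∀ i, c i ≤ #M := fun i =>
    (mk_out _).ge.trans (mk_le_of_injective (sigma_mk_injective (β := fun i => (c i).out) (i := i)))
  have m2 : ∀ i, 2 ^ c i ≤ #M := fun i => (c4 i).elim fun j hj => (c2 i j hj).trans (m1 j)
  have m3 : ∀ i, #{m : M | m.1 ≤ i} ≤ c i := fun i =>
    hsig _ i _ (c1 i) fun j hj => (mk_out _).le.trans (c3 j i hj)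
  obtain ⟨i₀⟩ := cb_nonempty Λ
  have m4 : ℵ₀ < #M := (c1 i₀).trans_lt ((cantor _).trans_le (m2 i₀))
  have m5 : #Λ ≤ #M := (mk_ord_toType _).le.trans (Order.succ_le_of_lt m4)
  have m6 : #M ^ ℵ₀ ≤ #M := by
    have : (univ : Set (ℕ → M)) ⊆ ⋃ i : Λ, range fun (g : ℕ → {m : M | m.1 ≤ i}) n => (g n).1 := by
      intro g _
      obtain ⟨i, hi⟩ := exists_bound_nat fun n => (g n).1
      exact mem_iUnion.2 ⟨i, fun n => ⟨g n, (hi n).le⟩, rfl⟩
    have h2 := (mk_le_mk_of_subset this).trans (mk_iUnion_le_sum_mk.trans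
      (sum_le_sum _ (fun _ => #M) fun i => mk_range_le.trans ?_))
    · rw [sum_const'] at h2
      simpa using h2.trans ((mul_le_mul' m5 le_rfl).trans (mul_eq_self m4.le).le)
    · have : #{m : M | m.1 ≤ i} ^ ℵ₀ ≤ #M := by
        refine (power_le_power_right ((m3 i).trans (cantor _).le)).trans ?_
        rw [← power_mul, mul_eq_left (c1 i) (c1 i) aleph0_ne_zero]
        exact m2 i
      simpa using this
  let Θ : Λ → Type u := fun i => (Order.succ (c i)).ord.ToType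
  have : Nonempty (∀ i, Θ i) := ⟨fun i => (bdd_succ (c1 i) ∅ (by simp)).choose⟩
  obtain ⟨f, hf⟩ := rec_choice (ι := (Order.succ #M).ord.ToType) (T := ∀ i, Θ i)
    (fun δ e g => ∀ γ < δ, ∃ ρ, ∀ i, ρ < i → e γ i < g i)
    (fun δ e e' g h hP γ hγ => h γ hγ ▸ hP γ hγ) (by
      intro δ e _
      obtain ⟨φ⟩ := (le_def _ _).1 (iic_succ m4.le δ)
      choose g hg using fun i => bdd_succ (c1 i) ((fun γ : Iic δ => e γ i) '' {γ | (φ γ).1 ≤ i})
        (mk_image_le.trans ((mk_le_of_injective (f := fun γ => (⟨φ γ.1, γ.2⟩ : {m : M | m.1 ≤ i}))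
          fun a b h => Subtype.ext (φ.injective (congrArg Subtype.val h))).trans (m3 i)))
      exact ⟨g, fun γ hγ => ⟨(φ ⟨γ, hγ.le⟩).1, fun i hi => hg i _ ⟨⟨γ, hγ.le⟩, hi.le, rfl⟩⟩⟩)
  refine ⟨#M, Λ, inferInstance, inferInstance, hΛ, Θ, inferInstance, inferInstance,
    fun i => Cardinal.noMaxOrder ((c1 i).trans (Order.le_succ _)), f, ⟨m4.le, m6⟩, m4, m5,
    fun ρ => ?_, fun γ δ h => hf δ γ h⟩
  obtain ⟨j, hj⟩ := c4 ρ
  exact ⟨c j, c1 j, m2 j, hsig Θ ρ _ (c1 j) fun i hi => (mk_ord_toType _).le.trans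
    ((Order.succ_le_of_lt (cantor _)).trans (c2 i j (hi.trans_lt hj)))⟩

end Pool.Agent.MP_57b808_an

end MrgPart0

-- ======== part 1: formerly Pool.Agent.MP_57b808_an.WSpace
section MrgPart1

/-! The space `W` of a tower of fields, its twisted norm and the exact extension property. -/

open Set Filter Topology BoundedContinuousFunction
open scoped MeasureTheory

namespace Pool.Agent.MP_57b808_an

universe u v

/-- points with a level -/
structure Pt (D Ω : Type u) : Type u where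
  x : D
  a : Ω

instance (D Ω : Type u) : TopologicalSpace (Pt D Ω) := ⊥
instance (D Ω : Type u) : DiscreteTopology (Pt D Ω) := ⟨rfl⟩

/-- bounded functions -/
abbrev BB (D Ω : Type u) : Type u := Pt D Ω →ᵇ ℝ

/-- composition operator -/
noncomputable def cmp {D Ω : Type u} (φ : Pt D Ω → Pt D Ω) : BB D Ω →L[ℝ] BB D Ω :=
  compContinuousCLM ℝ ℝ ⟨φ, continuous_of_discreteTopology⟩

theorem cmp_apply {D Ω : Type u} (φ : Pt D Ω → Pt D Ω) (f : BB D Ω) (p : Pt D Ω) :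
    cmp φ f p = f (φ p) := rfl

theorem cmp_le {D Ω : Type u} (φ : Pt D Ω → Pt D Ω) (f : BB D Ω) : ‖cmp φ f‖ ≤ ‖f‖ :=
  norm_compContinuous_le _ _

theorem abs_le_norm {D Ω : Type u} (f : BB D Ω) (p : Pt D Ω) : |f p| ≤ ‖f‖ :=
  f.norm_coe_le_norm p

theorem lim_pt {D Ω : Type u} {f : ℕ → BB D Ω} {g : BB D Ω} (h : Tendsto f atTop (𝓝 g))
    (p : Pt D Ω) : Tendsto (fun n => f n p) atTop (𝓝 (g p)) :=
  ((continuous_eval_const p).tendsto g).comp h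

theorem unif_fin {F : Type v} [NormedAddCommGroup F] [NormedSpace ℝ F] [FiniteDimensional ℝ F]
    {G ι : Type*} [NormedAddCommGroup G] [NormedSpace ℝ G] {l : Filter ι} (L : ι → F →ₗ[ℝ] G)
    (h : ∀ f, Tendsto (fun i => L i f) l (𝓝 0)) {ε : ℝ} (hε : 0 < ε) :
    ∀ᶠ i in l, ∀ f, ‖L i f‖ ≤ ε * ‖f‖ := by
  obtain ⟨C, hC, hb⟩ := (Module.finBasis ℝ F).exists_opNorm_le (F := G)
  have : ∀ᶠ i in l, ∀ k, ‖L i (Module.finBasis ℝ F k)‖ ≤ ε / C :=
    eventually_all.2 fun k => (tendsto_zero_iff_norm_tendsto_zero.1 (h _)).eventually_le_const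
      (div_pos hε hC)
  filter_upwards [this] with i hi f
  have := hb (u := LinearMap.toContinuousLinearMap (L i)) (div_pos hε hC).le hi
  rw [mul_div_cancel₀ _ hC.ne'] at this
  exact (LinearMap.toContinuousLinearMap (L i)).le_of_opNorm_le this f

theorem unif_strict {F : Type v} [NormedAddCommGroup F] [NormedSpace ℝ F] [FiniteDimensional ℝ F]
    {G : Type*} [NormedAddCommGroup G] [NormedSpace ℝ G] (A : F →ₗ[ℝ] G)
    (h : ∀ f, ‖f‖ = 1 → ‖A f‖ < 2) : ∃ δ > 0, ∀ f, ‖A f‖ ≤ (2 - δ) * ‖f‖ := by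
  have hc : Continuous fun f => 2 - ‖A f‖ :=
    continuous_const.sub A.continuous_of_finiteDimensional.norm
  obtain ⟨δ, hδ, hb⟩ := (isCompact_sphere (0 : F) 1).exists_forall_le' hc.continuousOn (a := 0)
    (fun f hf => sub_pos.2 (h f (by simpa using hf)))
  refine ⟨δ, hδ, fun f => ?_⟩
  rcases eq_or_ne f 0 with rfl | hf
  · simp
  have hn : 0 < ‖f‖ := norm_pos_iff.2 hf
  have := hb (‖f‖⁻¹ • f) (by simp [norm_smul, hn.ne'])
  simp only [map_smul, norm_smul, norm_inv, norm_norm] at this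
  have h2 : ‖f‖⁻¹ * ‖A f‖ ≤ 2 - δ := by linarith
  rwa [inv_mul_le_iff₀ hn, mul_comm] at h2

variable {D Ω : Type u} [LinearOrder Ω]

/-- the tower of fields with their ideals of compact sets -/
structure Tower (m : Ω → MeasurableSpace D) (C : Ω → Set D → Prop) : Prop where
  meas : ∀ α K, C α K → MeasurableSet[m α] K
  un : ∀ α (K : ℕ → Set D), (∀ n, C α (K n)) → C α (⋃ n, K n)
  emp : ∀ α, C α ∅
  tr : ∀ α β, β < α → ∀ M K, MeasurableSet[m α] M → C β K → MeasurableSet[m β] (M ∩ K)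

variable (m : Ω → MeasurableSpace D) (C : Ω → Set D → Prop)

/-- functions of level `β` -/
def IsY (β : Ω) (y : D → ℝ) : Prop := Measurable[m β] y ∧ ∃ K, C β K ∧ ∀ x ∉ K, y x = 0

/-- generators of level `β` -/
def Gen (β : Ω) : Set (BB D Ω) := {f | ∃ y, IsY m C β y ∧ ∀ x α, f ⟨x, α⟩ = if α ≤ β then y x else 0}

/-- the space -/
noncomputable def WW : Submodule ℝ (BB D Ω) :=
  (Submodule.span ℝ (⋃ β, Gen m C β)).topologicalClosure

/-- retraction to the levels from `γ` on -/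
noncomputable def Rr (γ : Ω) : BB D Ω →L[ℝ] BB D Ω := cmp fun p => ⟨p.x, max p.a γ⟩

theorem Rr_apply (γ : Ω) (f : BB D Ω) (x : D) (α : Ω) : Rr γ f ⟨x, α⟩ = f ⟨x, max α γ⟩ := rfl

theorem Rr_le (γ : Ω) (f : BB D Ω) : ‖Rr γ f‖ ≤ ‖f‖ := cmp_le _ f

variable {m C}

theorem gen_mem {β : Ω} {f : BB D Ω} (h : f ∈ Gen m C β) : f ∈ WW m C :=
  Submodule.le_topologicalClosure _ (Submodule.subset_span (mem_iUnion.2 ⟨β, h⟩))

theorem W_closed : IsClosed (WW m C : Set (BB D Ω)) := Submodule.isClosed_topologicalClosure _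

theorem W_ind {P : BB D Ω → Prop} (gen : ∀ β, ∀ f ∈ Gen m C β, P f) (zero : P 0)
    (add : ∀ f g, P f → P g → P (f + g)) (smul : ∀ (c : ℝ) f, P f → P (c • f))
    (lim : ∀ (f : ℕ → BB D Ω) g, (∀ n, P (f n)) → Tendsto f atTop (𝓝 g) → P g)
    {w : BB D Ω} (hw : w ∈ WW m C) : P w := by
  obtain ⟨f, hf, hl⟩ := mem_closure_iff_seq_limit.1 hw
  refine lim f w (fun n => ?_) hl
  refine Submodule.span_induction (p := fun x _ => P x) (fun x hx => ?_) zero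
    (fun x y _ _ => add x y) (fun c x _ => smul c x) (hf n)
  obtain ⟨β, hβ⟩ := mem_iUnion.1 hx
  exact gen β x hβ

theorem Rr_gen_le {β γ : Ω} {f : BB D Ω} (hf : f ∈ Gen m C β) (h : γ ≤ β) : Rr γ f = f := by
  obtain ⟨y, -, hy⟩ := hf
  ext ⟨x, α⟩
  simp [Rr_apply, hy, h]

theorem Rr_gen_gt {β γ : Ω} {f : BB D Ω} (hf : f ∈ Gen m C β) (h : β < γ) : Rr γ f = 0 := by
  obtain ⟨y, -, hy⟩ := hf
  ext ⟨x, α⟩
  simp [Rr_apply, hy, h.not_ge]

theorem W_map {P : Submodule ℝ (BB D Ω)} (hP : IsClosed (P : Set (BB D Ω)))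
    (L : BB D Ω →L[ℝ] BB D Ω) (h : ∀ β, ∀ f ∈ Gen m C β, L f ∈ P) {w : BB D Ω}
    (hw : w ∈ WW m C) : L w ∈ P :=
  W_ind (P := fun f => L f ∈ P) h (by simp) (fun f g h1 h2 => by simpa using P.add_mem h1 h2)
    (fun c f h1 => by simpa using P.smul_mem c h1)
    (fun f g h1 h2 => hP.mem_of_tendsto ((L.continuous.tendsto g).comp h2) (.of_forall h1)) hw

theorem Rr_mem (γ : Ω) {w : BB D Ω} (hw : w ∈ WW m C) : Rr γ w ∈ WW m C := by
  refine W_map W_closed _ (fun β f hf => ?_) hw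
  rcases le_or_gt γ β with h | h
  · rw [Rr_gen_le hf h]; exact gen_mem hf
  · rw [Rr_gen_gt hf h]; exact zero_mem _

theorem W_tendsto {ι : Type*} {l : Filter ι} (L : ι → BB D Ω →L[ℝ] BB D Ω)
    (hL : ∀ i f, ‖L i f‖ ≤ 2 * ‖f‖) (h : ∀ β, ∀ f ∈ Gen m C β, ∀ᶠ i in l, L i f = 0)
    {w : BB D Ω} (hw : w ∈ WW m C) : Tendsto (fun i => L i w) l (𝓝 0) := by
  refine W_ind (P := fun f => Tendsto (fun i => L i f) l (𝓝 0))
    (fun β f hf => tendsto_const_nhds.congr' ((h β f hf).mono fun i hi => hi.symm))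
    (by simpa using tendsto_const_nhds) (fun f g h1 h2 => by simpa using h1.add h2)
    (fun c f h1 => by simpa using h1.const_smul c) (fun f g h1 h2 => ?_) hw
  rw [Metric.tendsto_nhds]
  intro ε hε
  obtain ⟨n, hn⟩ := (Metric.tendsto_nhds.1 h2 (ε / 4) (by positivity)).exists
  filter_upwards [Metric.tendsto_nhds.1 (h1 n) (ε / 2) (by positivity)] with i hi
  rw [dist_zero_right] at hi ⊢
  have e : L i g = L i (f n) - L i (f n - g) := by simp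
  have := hL i (f n - g)
  rw [dist_eq_norm] at hn
  rw [e]
  linarith [norm_sub_le (L i (f n)) (L i (f n - g))]

variable [SuccOrder Ω] [NoMaxOrder Ω]

omit [SuccOrder Ω] in
theorem W_top {w : BB D Ω} (hw : w ∈ WW m C) : Tendsto (fun α => Rr α w) atTop (𝓝 0) :=
  W_tendsto Rr (fun i f => (Rr_le i f).trans (by linarith [norm_nonneg f]))
    (fun β f hf => (eventually_gt_atTop β).mono fun _ h => Rr_gen_gt hf h) hw

omit [SuccOrder Ω] [NoMaxOrder Ω] in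
theorem W_left {γ : Ω} (hγ : Order.IsSuccPrelimit γ) {w : BB D Ω} (hw : w ∈ WW m C) :
    Tendsto (fun α : Iio γ => Rr α.1 w - Rr γ w) atTop (𝓝 0) := by
  refine W_tendsto (fun α : Iio γ => Rr α.1 - Rr γ) (fun i f => ?_) (fun β f hf => ?_) hw
  · exact (norm_sub_le (Rr i.1 f) (Rr γ f)).trans (by linarith [Rr_le i.1 f, Rr_le γ f])
  · rcases le_or_gt γ β with h | h
    · exact .of_forall fun α => by simp [Rr_gen_le hf h, Rr_gen_le hf (α.2.le.trans h)]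
    · obtain ⟨β', h1, h2⟩ := hγ.lt_iff_exists_lt.1 h
      filter_upwards [eventually_ge_atTop (⟨β', h1⟩ : Iio γ)] with α hα
      simp [Rr_gen_gt hf h, Rr_gen_gt hf (h2.trans_le hα)]

theorem W_comp (H : Tower m C) (γ : Ω) {w : BB D Ω} (hw : w ∈ WW m C) :
    IsY m C γ fun x => w ⟨x, γ⟩ - w ⟨x, Order.succ γ⟩ := by
  let _ := m γ
  have hu : ∀ K K', C γ K → C γ K' → C γ (K ∪ K') := fun K K' h1 h2 => by
    have := H.un γ (fun n => if n = 0 then K else K') fun n => by split_ifs <;> assumption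
    convert this using 1
    ext x
    simp only [mem_union, mem_iUnion]
    refine ⟨fun h => h.elim (fun h => ⟨0, by simpa⟩) (fun h => ⟨1, by simpa⟩), ?_⟩
    rintro ⟨n, hn⟩
    split_ifs at hn
    exacts [Or.inl hn, Or.inr hn]
  refine W_ind (P := fun w => IsY m C γ fun x => w ⟨x, γ⟩ - w ⟨x, Order.succ γ⟩) ?_
    ⟨by simp, ∅, H.emp γ, by simp⟩ ?_ ?_ ?_ hw
  · rintro β f ⟨y, hy, hf⟩
    rcases lt_trichotomy β γ with h | rfl | h
    · exact ⟨by simp [hf, h.not_ge, h.not_gt], ∅, H.emp γ, by simp [hf, h.not_ge, h.le]⟩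
    · simpa [hf] using hy
    · exact ⟨by simp [hf, h.le, h], ∅, H.emp γ, by simp [hf, h.le, h]⟩
  · rintro f g ⟨h1, K, hK, h2⟩ ⟨h3, K', hK', h4⟩
    refine ⟨by convert h1.add h3 using 2; simp; ring, K ∪ K', hu K K' hK hK', fun x hx => ?_⟩
    have := h2 x fun h => hx (Or.inl h)
    have := h4 x fun h => hx (Or.inr h)
    simp only [BoundedContinuousFunction.add_apply] at *
    linarith
  · rintro c f ⟨h1, K, hK, h2⟩
    refine ⟨by convert h1.const_mul c using 2; simp; ring, K, hK, fun x hx => ?_⟩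
    have := h2 x hx
    simp only [BoundedContinuousFunction.smul_apply, smul_eq_mul] at *
    rw [← mul_sub, this, mul_zero]
  · intro f g h1 h2
    choose K hK hK' using fun n => (h1 n).2
    have hl := fun x => (lim_pt h2 ⟨x, γ⟩).sub (lim_pt h2 ⟨x, Order.succ γ⟩)
    refine ⟨measurable_of_tendsto_metrizable (fun n => (h1 n).1) (tendsto_pi_nhds.2 hl),
      ⋃ n, K n, H.un γ K hK, fun x hx => tendsto_nhds_unique (hl x) ?_⟩
    exact tendsto_const_nhds.congr fun n => (hK' n x fun h => hx (mem_iUnion.2 ⟨n, h⟩)).symm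

theorem W_ind_meas (H : Tower m C) (γ : Ω) {K : Set D} (hK : C γ K) {w : BB D Ω}
    (hw : w ∈ WW m C) : Measurable[m γ] (K.indicator fun x => w ⟨x, Order.succ γ⟩) := by
  let _ := m γ
  refine W_ind (P := fun w => Measurable[m γ] (K.indicator fun x => w ⟨x, Order.succ γ⟩)) ?_
    (by simp) ?_ ?_ ?_ hw
  · rintro β f ⟨y, hy, hf⟩
    rcases le_or_gt β γ with h | h
    · simp [hf, h.not_gt]
    · simp only [hf, Order.succ_le_iff, h, if_true]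
      intro s hs
      rw [indicator_preimage]
      refine (H.tr β γ h _ _ (hy.1 hs) hK).union (MeasurableSet.diff ?_ (H.meas γ K hK))
      exact measurable_const hs
  · intro f g h1 h2
    convert h1.add h2 using 1
    ext x
    by_cases hx : x ∈ K <;> simp [hx]
  · intro c f h1
    convert h1.const_mul c using 1
    ext x
    by_cases hx : x ∈ K <;> simp [hx]
  · intro f g h1 h2
    refine measurable_of_tendsto_metrizable h1 (tendsto_pi_nhds.2 fun x => ?_)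
    by_cases hx : x ∈ K
    · simpa [hx] using lim_pt h2 ⟨x, Order.succ γ⟩
    · simp [hx]

/-- the edge operator -/
noncomputable def Ed : BB D Ω →L[ℝ] BB D Ω :=
  ContinuousLinearMap.id ℝ _ - (1 / 2 : ℝ) • cmp fun p => ⟨p.x, Order.succ p.a⟩

omit [NoMaxOrder Ω] in
theorem Ed_apply (f : BB D Ω) (x : D) (α : Ω) :
    Ed f ⟨x, α⟩ = f ⟨x, α⟩ - 1 / 2 * f ⟨x, Order.succ α⟩ := rfl

/-- edges from level `γ` on are bounded by `c` -/
def EdLe (f : BB D Ω) (γ : Ω) (c : ℝ) : Prop := ∀ x α, γ ≤ α → |Ed f ⟨x, α⟩| ≤ c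

omit [NoMaxOrder Ω] in
theorem EdLe.l1 {f : BB D Ω} {γ : Ω} {c : ℝ} (hc : 0 ≤ c) (h : EdLe f γ c) (x : D) {α : Ω}
    (hα : γ ≤ α) : |f ⟨x, α⟩| ≤ 2 * c := by
  have h1 : ∀ x α, γ ≤ α → |f ⟨x, α⟩| ≤ ‖Rr γ f‖ := fun x α hα => by
    simpa [Rr_apply, hα] using abs_le_norm (Rr γ f) ⟨x, α⟩
  have h2 : ‖Rr γ f‖ ≤ c + ‖Rr γ f‖ / 2 := by
    refine (norm_le (by positivity)).2 ?_
    rintro ⟨x, α⟩
    have a1 := h x _ (le_max_right α γ)
    have a2 := h1 x _ ((le_max_right α γ).trans (Order.le_succ _))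
    rw [Ed_apply, abs_le] at a1
    rw [abs_le] at a2
    rw [Rr_apply, Real.norm_eq_abs, abs_le]
    constructor <;> linarith
  linarith [h1 x α hα]

variable [WellFoundedLT Ω]

theorem EdLe.strict {w : BB D Ω} (hw : w ∈ WW m C) {γ : Ω} {c : ℝ} (hc : 0 < c)
    (h : EdLe w γ c) : ∃ δ > 0, ∀ x, |w ⟨x, γ⟩| ≤ 2 * c - δ := by
  have : Nonempty Ω := ⟨γ⟩
  refine down_ind (fun α => ∃ δ > 0, ∀ x, |w ⟨x, α⟩| ≤ 2 * c - δ) γ ?_ ?_ ?_
  · obtain ⟨α, h1, h2⟩ := ((eventually_ge_atTop γ).and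
      ((tendsto_zero_iff_norm_tendsto_zero.1 (W_top hw)).eventually_le_const hc)).exists
    refine ⟨α, h1, c, hc, fun x => ?_⟩
    have := abs_le_norm (Rr α w) ⟨x, α⟩
    rw [Rr_apply, max_self] at this
    linarith
  · rintro α hα ⟨δ, hδ, h1⟩
    refine ⟨δ / 2, by positivity, fun x => ?_⟩
    have a1 := h x α hα
    have a2 := h1 x
    rw [Ed_apply, abs_le] at a1
    rw [abs_le] at a2 ⊢
    constructor <;> linarith
  · rintro α hα hl ⟨δ, hδ, h1⟩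
    have : Nonempty (Iio α) := ⟨⟨γ, hα⟩⟩
    obtain ⟨β, h2, h3⟩ := ((eventually_ge_atTop (⟨γ, hα⟩ : Iio α)).and
      ((tendsto_zero_iff_norm_tendsto_zero.1 (W_left hl hw)).eventually_le_const
        (half_pos hδ))).exists
    refine ⟨β, h2, β.2, δ / 2, half_pos hδ, fun x => ?_⟩
    have a1 := (abs_le_norm (Rr β.1 w - Rr α w) ⟨x, β⟩).trans h3
    have a2 := h1 x
    simp only [BoundedContinuousFunction.sub_apply, Rr_apply, max_self,
      max_eq_right (le_of_lt β.2)] at a1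
    rw [abs_le] at a1 a2 ⊢
    constructor <;> linarith

omit [WellFoundedLT Ω] in
theorem sol_succ (H : Tower m C) {F : Type v} [NormedAddCommGroup F] [NormedSpace ℝ F]
    [FiniteDimensional ℝ F] (π : F →ₗ[ℝ] BB D Ω) (hπ : ∀ f, π f ∈ WW m C) (τ : F →ₗ[ℝ] ℝ)
    {z : F} (hz : τ z = 1) (h0 : ∀ f, τ f = 0 → ‖Ed (π f)‖ ≤ ‖f‖) {γ : Ω} {w : BB D Ω}
    (hw : w ∈ WW m C) (hs : ∀ f, EdLe (π f + τ f • w) (Order.succ γ) ‖f‖) :
    ∃ w' ∈ WW m C, ∀ f, EdLe (π f + τ f • w') γ ‖f‖ := by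
  classical
  let _ := m γ
  have : Nonempty F := ⟨0⟩
  have hπc : Continuous π := π.continuous_of_finiteDimensional
  have hτc : Continuous τ := τ.continuous_of_finiteDimensional
  have hev : ∀ p, Continuous fun f => π f p := fun p => (continuous_eval_const p).comp hπc
  let s := TopologicalSpace.denseSeq F
  have hsd : DenseRange s := TopologicalSpace.denseRange_denseSeq F
  choose Kn hKn hKn' using fun n => (W_comp H γ (hπ (s n))).2
  set K := ⋃ n, Kn n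
  have hK : C γ K := H.un γ _ hKn
  have hK' : ∀ x ∉ K, ∀ f, π f ⟨x, γ⟩ - π f ⟨x, Order.succ γ⟩ = 0 := fun x hx f =>
    hsd.induction_on f (isClosed_eq ((hev _).sub (hev _)) continuous_const)
      fun n => hKn' n x fun h => hx (mem_iUnion.2 ⟨n, h⟩)
  let ρ : F → F := fun f => f + (1 - τ f) • z
  have hρ : ∀ f, τ (ρ f) = 1 := fun f => by simp [ρ, hz]
  have hρc : Continuous ρ := continuous_id.add ((continuous_const.sub hτc).smul continuous_const)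
  let g : F → D → ℝ := fun f x => Ed (π f) ⟨x, γ⟩ + 1 / 2 * w ⟨x, Order.succ γ⟩
  have hg : ∀ f f' x, τ f = 1 → τ f' = 1 → -‖f‖ - g f x ≤ ‖f'‖ - g f' x := by
    intro f f' x h1 h2
    have a1 := (abs_le_norm _ ⟨x, γ⟩).trans (h0 (f' - f) (by simp [h1, h2]))
    simp only [map_sub, BoundedContinuousFunction.sub_apply] at a1
    have a2 := norm_sub_le f' f
    have := (abs_le.1 a1).2
    simp only [g]
    linarith
  let y₀ : D → ℝ := fun x => ⨆ n, (-‖ρ (s n)‖ - g (ρ (s n)) x)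
  have hy1 : ∀ f x, τ f = 1 → y₀ x ≤ ‖f‖ - g f x := fun f x hf =>
    ciSup_le fun n => hg _ _ x (hρ _) hf
  have hy2 : ∀ f x, τ f = 1 → -‖f‖ - g f x ≤ y₀ x := by
    intro f x hf
    have : -‖ρ f‖ - g (ρ f) x ≤ y₀ x := by
      refine hsd.induction_on (p := fun f => -‖ρ f‖ - g (ρ f) x ≤ y₀ x) f
        (isClosed_le (hρc.norm.neg.sub (Continuous.add ?_ continuous_const)) continuous_const)
        fun n => le_ciSup (f := fun n => -‖ρ (s n)‖ - g (ρ (s n)) x)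
          ⟨‖z‖ - g z x, by rintro _ ⟨n, rfl⟩; exact hg _ _ x (hρ _) hz⟩ n
      exact (continuous_eval_const _).comp (Ed.continuous.comp (hπc.comp hρc))
    simpa [ρ, hf] using this
  have hym : Measurable (K.indicator y₀) := by
    have e : K.indicator y₀ = fun x => ⨆ n, K.indicator (fun x => -‖ρ (s n)‖ - g (ρ (s n)) x) x := by
      ext x
      by_cases hx : x ∈ K <;> simp [hx, y₀]
    rw [e]
    refine Measurable.iSup fun n => ?_
    have a1 := (W_comp H γ (hπ (ρ (s n)))).1.indicator (H.meas γ K hK)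
    have a2 := W_ind_meas H γ hK (add_mem (hπ (ρ (s n))) hw)
    have a3 : Measurable (K.indicator fun _ => -‖ρ (s n)‖) :=
      measurable_const.indicator (H.meas γ K hK)
    convert (a3.sub a1).sub (a2.const_mul (1 / 2)) using 1
    ext x
    by_cases hx : x ∈ K
    · simp [hx, g, Ed_apply]
      ring
    · simp [hx]
  have hyb : ∀ x, |K.indicator y₀ x| ≤ ‖z‖ + ‖Ed (π z)‖ + ‖w‖ := by
    intro x
    by_cases hx : x ∈ K
    · have a1 := hy1 z x hz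
      have a2 := hy2 z x hz
      have a3 := abs_le.1 (abs_le_norm (Ed (π z)) ⟨x, γ⟩)
      have a4 := abs_le.1 (abs_le_norm w ⟨x, Order.succ γ⟩)
      simp only [g] at a1 a2
      rw [indicator_of_mem hx, abs_le]
      constructor <;> linarith [norm_nonneg w]
    · rw [indicator_of_notMem hx, abs_zero]; positivity
  let Y : BB D Ω := ofNormedAddCommGroupDiscrete
    (fun p => if p.a ≤ γ then K.indicator y₀ p.x else 0) (‖z‖ + ‖Ed (π z)‖ + ‖w‖) fun p => by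
      split_ifs
      · exact hyb _
      · rw [norm_zero]; positivity
  have hY : ∀ x α, Y ⟨x, α⟩ = if α ≤ γ then K.indicator y₀ x else 0 := fun _ _ => rfl
  have hYg : Y ∈ Gen m C γ := ⟨_, ⟨hym, K, hK, fun x hx => indicator_of_notMem hx _⟩, hY⟩
  refine ⟨Rr (Order.succ γ) w + Y, add_mem (Rr_mem _ hw) (gen_mem hYg), fun f x α hα => ?_⟩
  rcases hα.eq_or_lt with rfl | hα
  · by_cases hx : x ∈ K
    · have e : Ed (π f + τ f • (Rr (Order.succ γ) w + Y)) ⟨x, γ⟩ =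
          Ed (π f) ⟨x, γ⟩ + τ f * (1 / 2 * w ⟨x, Order.succ γ⟩ + y₀ x) := by
        simp [Ed_apply, Rr_apply, hY, hx, Order.le_succ]
        ring
      rw [e]
      rcases eq_or_ne (τ f) 0 with ht | ht
      · simpa [ht] using (abs_le_norm _ ⟨x, γ⟩).trans (h0 f ht)
      · have a1 := hy1 ((τ f)⁻¹ • f) x (by simp [ht])
        have a2 := hy2 ((τ f)⁻¹ • f) x (by simp [ht])
        have a3 : |g ((τ f)⁻¹ • f) x + y₀ x| ≤ ‖(τ f)⁻¹ • f‖ := abs_le.2 ⟨by linarith, by linarith⟩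
        have e2 : Ed (π f) ⟨x, γ⟩ + τ f * (1 / 2 * w ⟨x, Order.succ γ⟩ + y₀ x) =
            τ f * (g ((τ f)⁻¹ • f) x + y₀ x) := by
          simp only [g, map_smul, BoundedContinuousFunction.smul_apply, smul_eq_mul]
          field_simp
          ring
        rw [e2, abs_mul]
        rw [norm_smul, norm_inv, Real.norm_eq_abs] at a3
        refine (mul_le_mul_of_nonneg_left a3 (abs_nonneg _)).trans (le_of_eq ?_)
        field_simp
    · have a1 := (hs f).l1 (norm_nonneg f) x le_rfl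
      have a2 := hK' x hx f
      have e : Ed (π f + τ f • (Rr (Order.succ γ) w + Y)) ⟨x, γ⟩ =
          1 / 2 * (π f + τ f • w) ⟨x, Order.succ γ⟩ := by
        simp [Ed_apply, Rr_apply, hY, hx, Order.le_succ]
        linarith
      rw [e, abs_mul, abs_of_pos (by norm_num : (0 : ℝ) < 1 / 2)]
      linarith
  · have h1 : Order.succ γ ≤ α := Order.succ_le_of_lt hα
    have h2 : Order.succ γ ≤ Order.succ α := h1.trans (Order.le_succ _)
    convert hs f x α h1 using 2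
    simp [Ed_apply, Rr_apply, hY, h1, h2, hα.not_ge, hα.le]

theorem W_ext [OrderBot Ω] (H : Tower m C) {F : Type v} [NormedAddCommGroup F] [NormedSpace ℝ F]
    [FiniteDimensional ℝ F] (π : F →ₗ[ℝ] BB D Ω) (hπ : ∀ f, π f ∈ WW m C) (τ : F →ₗ[ℝ] ℝ)
    {z : F} (hz : τ z = 1) (h0 : ∀ f, τ f = 0 → ‖Ed (π f)‖ ≤ ‖f‖) :
    ∃ w ∈ WW m C, ∀ f, ‖Ed (π f + τ f • w)‖ ≤ ‖f‖ := by
  suffices ∃ w ∈ WW m C, ∀ f, EdLe (π f + τ f • w) ⊥ ‖f‖ by
    obtain ⟨w, hw, h⟩ := this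
    exact ⟨w, hw, fun f => (norm_le (norm_nonneg f)).2 fun p => h f p.x p.a bot_le⟩
  refine down_ind (fun γ => ∃ w ∈ WW m C, ∀ f, EdLe (π f + τ f • w) γ ‖f‖) ⊥ ?_
    (fun γ _ ⟨w, hw, hs⟩ => sol_succ H π hπ τ hz h0 hw hs) ?_
  · obtain ⟨γ, hγ⟩ := (unif_fin (fun α : Ω => (Rr α).toLinearMap ∘ₗ π) (fun f => W_top (hπ f))
      (ε := 1 / 2) (by norm_num)).exists
    refine ⟨γ, bot_le, 0, zero_mem _, fun f x α hα => ?_⟩
    have a1 := (abs_le_norm _ ⟨x, α⟩).trans (hγ f)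
    have a2 := (abs_le_norm _ ⟨x, Order.succ α⟩).trans (hγ f)
    simp only [LinearMap.comp_apply, ContinuousLinearMap.coe_coe, Rr_apply, max_eq_left hα,
      max_eq_left (hα.trans (Order.le_succ α))] at a1 a2
    rw [smul_zero, add_zero, Ed_apply]
    rw [abs_le] at a1 a2 ⊢
    constructor <;> linarith [norm_nonneg f]
  · rintro γ hγ hl ⟨w, hw, hs⟩
    obtain ⟨δ, hδ, hA⟩ := unif_strict
      ((cmp fun p : Pt D Ω => ⟨p.x, γ⟩).toLinearMap ∘ₗ (π + τ.smulRight w)) fun f hf => by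
        obtain ⟨δ, hδ, h⟩ := (hs f).strict (add_mem (hπ f) (Submodule.smul_mem _ _ hw))
          (by rw [hf]; norm_num)
        rw [hf] at h
        refine lt_of_le_of_lt ((norm_le (C := max (2 - δ) 0) (le_max_right _ _)).2
          fun p => le_max_of_le_left (by simpa [cmp_apply] using h p.x)) (max_lt (by linarith) two_pos)
    have : Nonempty (Iio γ) := ⟨⟨⊥, hγ⟩⟩
    obtain ⟨β, hβ⟩ := eventually_atTop.1 (unif_fin
      (fun α : Iio γ => (Rr α.1 - Rr γ).toLinearMap ∘ₗ π) (fun f => W_left hl (hπ f))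
      (ε := δ / 3) (by positivity))
    refine ⟨β, bot_le, β.2, Rr γ w, Rr_mem _ hw, fun f x α hα => ?_⟩
    rcases le_or_gt γ α with h | h
    · convert hs f x α h using 2
      simp [Ed_apply, Rr_apply, h, h.trans (Order.le_succ α)]
    · have h' := hl.succ_lt h
      have a1 := (abs_le_norm _ ⟨x, α⟩).trans (hβ ⟨α, h⟩ hα f)
      have a2 := (abs_le_norm _ ⟨x, Order.succ α⟩).trans
        (hβ ⟨Order.succ α, h'⟩ (le_trans hα (Order.le_succ α) : β.1 ≤ _) f)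
      have a3 := (abs_le_norm _ ⟨x, α⟩).trans (hA f)
      simp only [LinearMap.comp_apply, ContinuousLinearMap.coe_coe, Rr_apply, max_self,
        _root_.sub_apply, BoundedContinuousFunction.sub_apply, max_eq_right h.le,
        max_eq_right h'.le, cmp_apply, LinearMap.add_apply, LinearMap.smulRight_apply,
        BoundedContinuousFunction.add_apply, BoundedContinuousFunction.smul_apply,
        smul_eq_mul] at a1 a2 a3
      simp only [Ed_apply, Rr_apply, max_eq_right h.le, max_eq_right h'.le,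
        BoundedContinuousFunction.add_apply, BoundedContinuousFunction.smul_apply, smul_eq_mul]
      rw [abs_le] at a1 a2 a3 ⊢
      constructor <;> linarith

end Pool.Agent.MP_57b808_an

end MrgPart1

-- ======== part 2: formerly Pool.Agent.MP_57b808_an.WData
section MrgPart2

/-! The space `W` built from a scale. -/

open Set Filter Topology BoundedContinuousFunction MeasurableSpace
open Cardinal hiding univ
open scoped MeasureTheory

namespace Pool.Agent.MP_57b808_an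

universe u v

/-- what is used of the space `W` -/
structure WData (μ : Cardinal.{u}) {Ω Λ Δ W : Type u} [LinearOrder Λ] [LinearOrder Ω]
    [NormedAddCommGroup W] [NormedSpace ℝ W] (lev : Δ → Λ) (tw : W → ℝ) (T : Δ → W →ₗ[ℝ] ℝ)
    (R : Ω → W →L[ℝ] W) : Prop where
  tw_le : ∀ w, tw w ≤ 2 * ‖w‖
  le_tw : ∀ w, ‖w‖ ≤ 2 * tw w
  T_le : ∀ d w, |T d w| ≤ 2 * ‖w‖
  ext : ∀ (F : Type v) [NormedAddCommGroup F] [NormedSpace ℝ F] [FiniteDimensional ℝ F]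
    (π : F →ₗ[ℝ] W) (τ : F →ₗ[ℝ] ℝ) (z : F), τ z = 1 → (∀ f, τ f = 0 → tw (π f) ≤ ‖f‖) →
    ∃ w, ∀ f, tw (π f + τ f • w) ≤ ‖f‖
  b : ∀ w, ∃ ρ, ∀ d, ρ < lev d → |T d w| ≤ tw w
  c : ∀ w c ρ, 0 ≤ c → (∀ d, ρ < lev d → |T d w| ≤ c) → tw w ≤ c
  R_le : ∀ γ w, ‖R γ w‖ ≤ ‖w‖
  R_comp : ∀ α β w, R α (R β w) = R (max α β) w
  R_lim : ∀ γ w, Order.IsSuccPrelimit γ → Tendsto (fun α : Iio γ => R α w) atTop (𝓝 (R γ w))
  R_top : ∀ w, Tendsto (fun α => R α w) atTop (𝓝 0)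
  card : ∀ γ, #(range fun w => w - R γ w) ≤ μ
  tr : ∀ ρ, #({d | lev d ≤ ρ} → ℝ) ≤ μ
  sep : ∃ y : Ω → W, ∀ α β, α < β → R β (y α) = 0 ∧ 1 ≤ ‖y β - y α‖ ∧ 1 ≤ ‖y α‖

theorem eq_of_rat {a b : ℝ}
    (h : ∀ n, a < (Denumerable.ofNat ℚ n : ℚ) ↔ b < (Denumerable.ofNat ℚ n : ℚ)) : a = b := by
  refine eq_of_forall_lt_rat_iff_lt fun q => ?_
  obtain ⟨n, rfl⟩ := (Denumerable.eqv ℚ).symm.surjective q
  exact h n

section
variable {D Ω : Type u} [LinearOrder Ω]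

theorem card_gen {μ : Cardinal.{u}} (H : Om μ) {m : Ω → MeasurableSpace D} {C : Ω → Set D → Prop}
    (hm : ∀ β, #{M | MeasurableSet[m β] M} ≤ μ) (β : Ω) : #(Gen m C β) ≤ μ := by
  have h1 : ∀ f : Gen m C β, Measurable[m β] fun x => f.1 ⟨x, β⟩ := by
    rintro ⟨f, y, hy, hf⟩
    simpa [hf] using hy.1
  refine le_trans (mk_le_of_injective (f := fun (f : Gen m C β) (n : ℕ) =>
    (⟨_, h1 f (measurableSet_Iio (a := ((Denumerable.ofNat ℚ n : ℚ) : ℝ)))⟩ :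
      {M | MeasurableSet[m β] M})) ?_) (H.seq (hm β))
  rintro ⟨f, y, hy, hf⟩ ⟨f', y', hy', hf'⟩ h
  ext ⟨x, α⟩
  have : y x = y' x := eq_of_rat fun n => by
    simpa [hf, hf'] using Set.ext_iff.1 (congrArg Subtype.val (congrFun h n)) x
  simp [hf, hf', this]

variable (a : Ω → Set D)

/-- the field of level `γ` -/
@[instance_reducible] def fld (γ : Ω) : MeasurableSpace D :=
  generateFrom {s | ∃ δ, γ ≤ δ ∧ s = a δ ∩ a γ}

/-- the compact sets of level `γ` -/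
def cpt (γ : Ω) (K : Set D) : Prop := MeasurableSet[fld a γ] K ∧ K ⊆ a γ

theorem fld_gen {γ δ : Ω} (h : γ ≤ δ) : MeasurableSet[fld a γ] (a δ ∩ a γ) :=
  measurableSet_generateFrom ⟨δ, h, rfl⟩

theorem cpt_self (γ : Ω) : cpt a γ (a γ) := ⟨by simpa using fld_gen a (le_refl γ), subset_rfl⟩

theorem tower : Tower (fld a) (cpt a) := by
  refine ⟨fun α K h => h.1, fun α K h => ⟨.iUnion fun n => (h n).1, iUnion_subset fun n => (h n).2⟩,
    fun α => ⟨@MeasurableSet.empty _ (fld a α), empty_subset _⟩, fun α β h M K hM hK => ?_⟩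
  have : MeasurableSet[fld a β] (M ∩ a β) := by
    induction M, hM using generateFrom_induction with
    | hC t ht _ =>
      obtain ⟨δ, hδ, rfl⟩ := ht
      rw [inter_inter_distrib_right]
      exact (fld_gen a (h.le.trans hδ)).inter (fld_gen a h.le)
    | empty => simp
    | compl t _ ht =>
      convert (cpt_self a β).1.diff ht using 1
      ext x
      simp only [mem_inter_iff, mem_compl_iff, Set.mem_sdiff]
      tauto
    | iUnion s _ hs => rw [iUnion_inter]; exact .iUnion hs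
  convert this.inter hK.1 using 1
  rw [inter_assoc, inter_eq_right.2 hK.2]

theorem fld_dep {β : Ω} {M : Set D} (hM : MeasurableSet[fld a β] M) : ∃ S : Set Ω, S.Countable ∧
    (∀ δ ∈ S, β ≤ δ) ∧ ∀ x x', (∀ δ ∈ S, x ∈ a δ ↔ x' ∈ a δ) → (x ∈ M ↔ x' ∈ M) := by
  induction M, hM using generateFrom_induction with
  | hC t ht _ =>
    obtain ⟨δ, hδ, rfl⟩ := ht
    exact ⟨{δ, β}, to_countable _, by simp [hδ], fun x x' h => by
      simp [h δ (by simp), h β (by simp)]⟩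
  | empty => exact ⟨∅, countable_empty, by simp, by simp⟩
  | compl t _ ht => exact ht.imp fun S h => ⟨h.1, h.2.1, fun x x' e => not_congr (h.2.2 x x' e)⟩
  | iUnion s _ hs =>
    choose S h1 h2 h3 using hs
    refine ⟨⋃ n, S n, countable_iUnion h1, by simpa using fun δ n => h2 n δ, fun x x' e => ?_⟩
    simp only [mem_iUnion]
    exact exists_congr fun n => h3 n x x' fun δ hδ => e δ (mem_iUnion.2 ⟨n, hδ⟩)

theorem W_dep {w : BB D Ω} (hw : w ∈ WW (fld a) (cpt a)) : ∃ S : Set Ω, S.Countable ∧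
    ∀ x α x' α', (∀ δ ∈ S, (α ≤ δ ∧ x ∈ a δ) ↔ (α' ≤ δ ∧ x' ∈ a δ)) → w ⟨x, α⟩ = w ⟨x', α'⟩ := by
  refine W_ind (P := fun w => ∃ S : Set Ω, S.Countable ∧ ∀ x α x' α',
    (∀ δ ∈ S, (α ≤ δ ∧ x ∈ a δ) ↔ (α' ≤ δ ∧ x' ∈ a δ)) → w ⟨x, α⟩ = w ⟨x', α'⟩) ?_
    ⟨∅, countable_empty, by simp⟩ ?_ ?_ ?_ hw
  · rintro β f ⟨y, ⟨hy, K, hK, hy'⟩, hf⟩
    choose S h1 h2 h3 using fun n => fld_dep a
      (hy (measurableSet_Iio (a := ((Denumerable.ofNat ℚ n : ℚ) : ℝ))))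
    refine ⟨insert β (⋃ n, S n), (countable_iUnion h1).insert β, fun x α x' α' e => ?_⟩
    have h0 : ∀ x α, ¬ (α ≤ β ∧ x ∈ a β) → f ⟨x, α⟩ = 0 := fun x α h => by
      rw [hf]
      split_ifs with h4
      exacts [hy' x fun h5 => h ⟨h4, hK.2 h5⟩, rfl]
    by_cases h : α ≤ β ∧ x ∈ a β
    · have h' := (e β (mem_insert _ _)).1 h
      rw [hf, hf, if_pos h.1, if_pos h'.1]
      refine eq_of_rat fun n => h3 n x x' fun δ hδ => ?_
      simpa [h.1.trans (h2 n δ hδ), h'.1.trans (h2 n δ hδ)] using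
        e δ (mem_insert_of_mem _ (mem_iUnion.2 ⟨n, hδ⟩))
    · rw [h0 x α h, h0 x' α' fun h' => h ((e β (mem_insert _ _)).2 h')]
  · rintro f g ⟨S, h1, h2⟩ ⟨S', h3, h4⟩
    exact ⟨S ∪ S', h1.union h3, fun x α x' α' e => by
      simp [h2 x α x' α' fun δ h => e δ (Or.inl h), h4 x α x' α' fun δ h => e δ (Or.inr h)]⟩
  · rintro c f ⟨S, h1, h2⟩
    exact ⟨S, h1, fun x α x' α' e => by simp [h2 x α x' α' e]⟩
  · intro f g h1 h2
    choose S h3 h4 using h1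
    exact ⟨⋃ n, S n, countable_iUnion h3, fun x α x' α' e => tendsto_nhds_unique (lim_pt h2 _)
      ((lim_pt h2 _).congr fun n => (h4 n x α x' α' fun δ h => e δ (mem_iUnion.2 ⟨n, h⟩)).symm)⟩

end

theorem exists_wdata {μ : Cardinal.{u}} {Λ Ω : Type u} [LinearOrder Λ] [Cb Λ] [LinearOrder Ω]
    [WellFoundedLT Ω] [OrderBot Ω] [SuccOrder Ω] [NoMaxOrder Ω] {Θ : Λ → Type u}
    [∀ i, LinearOrder (Θ i)] [∀ i, SuccOrder (Θ i)] [∀ i, NoMaxOrder (Θ i)] (f : Ω → ∀ i, Θ i)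
    (Hμ : Om μ) (hΛ : #Λ ≤ μ) (hΩ : ∀ α : Ω, #(Iio α) ≤ μ)
    (hP : ∀ ρ, ∃ ν, ℵ₀ ≤ ν ∧ 2 ^ ν ≤ μ ∧ #{p : Σ i, Θ i | p.1 ≤ ρ} ≤ ν)
    (hf : ∀ γ δ, γ < δ → ∃ ρ, ∀ i, ρ < i → f γ i < f δ i) :
    ∃ (Δ W : Type u) (_ : NormedAddCommGroup W) (_ : NormedSpace ℝ W) (_ : CompleteSpace W)
      (lev : Δ → Λ) (tw : W → ℝ) (T : Δ → W →ₗ[ℝ] ℝ) (R : Ω → W →L[ℝ] W),
      WData.{u, v} μ lev tw T R := by
  classical
  let D := List (Σ i, Θ i)
  let a : Ω → Set D := fun δ => {x | ∀ p ∈ x, p.2 ≤ f δ p.1}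
  let m := fld a
  let C := cpt a
  have H : Tower m C := tower a
  have hm : ∀ γ, #{M | MeasurableSet[m γ] M} ≤ μ := by
    intro γ
    refine (cardinal_measurableSet_le _).trans (Hμ.pw (max_le ?_ Hμ.two))
    have : {s | ∃ δ, γ ≤ δ ∧ s = a δ ∩ a γ} ⊆ ⋃ ρ : Λ, range
        fun S : Set {p : Σ i, Θ i | p.1 ≤ ρ} => {x ∈ a γ | ∀ p ∈ x, ∀ h : p.1 ≤ ρ, ⟨p, h⟩ ∈ S} := by
      rintro _ ⟨δ, hδ, rfl⟩
      obtain ⟨ρ, hρ⟩ : ∃ ρ, ∀ i, ρ < i → f γ i ≤ f δ i := by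
        rcases hδ.eq_or_lt with rfl | hδ
        · exact ⟨(cb_nonempty Λ).some, fun _ _ => le_rfl⟩
        · exact (hf γ δ hδ).imp fun ρ h i hi => (h i hi).le
      refine mem_iUnion.2 ⟨ρ, {p | p.1.2 ≤ f δ p.1.1}, ?_⟩
      ext x
      refine ⟨fun h => ⟨fun p hp => ?_, h.1⟩, fun h => ⟨h.2, fun p hp _ => h.1 p hp⟩⟩
      rcases le_or_gt p.1 ρ with h1 | h1
      exacts [h.2 p hp h1, (h.1 p hp).trans (hρ _ h1)]
    refine (mk_le_mk_of_subset this).trans (mk_iUnion_le_sum_mk.trans (Hμ.sum hΛ fun ρ => ?_))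
    obtain ⟨ν, -, h2, h3⟩ := hP ρ
    exact mk_range_le.trans (mk_set.le.trans ((power_le_power_left two_ne_zero h3).trans h2))
  have hS : ∀ S : Set Ω, S.Countable → ∃ ρ, ∀ i, ρ < i → ∀ γ ∈ S, ∀ δ ∈ S,
      (f γ i ≤ f δ i ↔ γ ≤ δ) := by
    intro S hS
    have := cb_nonempty Λ
    choose! r hr using hf
    obtain ⟨ρ, hρ⟩ := Cb.bdd _ ((hS.prod hS).image fun q => r q.1 q.2)
    have h1 : ∀ i, ρ < i → ∀ γ ∈ S, ∀ δ ∈ S, γ < δ → f γ i < f δ i := fun i hi γ hγ δ hδ h =>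
      hr γ δ h i ((hρ _ ⟨(γ, δ), ⟨hγ, hδ⟩, rfl⟩).trans hi)
    refine ⟨ρ, fun i hi γ hγ δ hδ => ⟨fun h => not_lt.1 fun h' => (h1 i hi δ hδ γ hγ h').not_ge h,
      fun h => h.eq_or_lt.elim (fun e => e ▸ le_rfl) fun h => (h1 i hi γ hγ δ hδ h).le⟩⟩
  let Δ := {d : D × Σ i, Θ i // ∀ p ∈ d.1, p.1 ≤ d.2.1}
  let T : Δ → WW m C →ₗ[ℝ] ℝ := fun d =>
    { toFun := fun w => w.1 ⟨d.1.2 :: d.1.1, ⊥⟩ -
        1 / 2 * w.1 ⟨⟨d.1.2.1, Order.succ d.1.2.2⟩ :: d.1.1, ⊥⟩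
      map_add' := fun w w' => by simp; ring
      map_smul' := fun c w => by simp; ring }
  have hT : ∀ x i ξ h w, T ⟨(x, ⟨i, ξ⟩), h⟩ w =
      w.1 ⟨⟨i, ξ⟩ :: x, ⊥⟩ - 1 / 2 * w.1 ⟨⟨i, Order.succ ξ⟩ :: x, ⊥⟩ := fun _ _ _ _ _ => rfl
  have ha : ∀ i ξ x δ, (⟨i, ξ⟩ :: x : D) ∈ a δ ↔ ξ ≤ f δ i ∧ x ∈ a δ :=
    fun i ξ x δ => List.forall_mem_cons
  have hedge : ∀ w : WW m C, ∃ S : Set Ω, S.Countable ∧ ∀ x i ξ h,
      ((∀ δ ∈ S, f δ i ≠ ξ) → T ⟨(x, ⟨i, ξ⟩), h⟩ w = 1 / 2 * w.1 ⟨⟨i, ξ⟩ :: x, ⊥⟩) ∧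
      ∀ γ, f γ i = ξ → (∀ δ ∈ S, (f δ i ≤ f γ i ↔ δ ≤ γ) ∧ (f γ i ≤ f δ i ↔ γ ≤ δ)) →
        T ⟨(x, ⟨i, ξ⟩), h⟩ w = Ed w.1 ⟨x, γ⟩ := by
    intro w
    obtain ⟨S, h1, h2⟩ := W_dep a w.2
    refine ⟨S, h1, fun x i ξ h => ⟨fun h3 => ?_, fun γ h3 h4 => ?_⟩⟩
    · rw [hT, h2 (⟨i, Order.succ ξ⟩ :: x) ⊥ (⟨i, ξ⟩ :: x) ⊥ fun δ hδ => by
        simp [ha, le_iff_lt_or_eq (a := ξ), (h3 δ hδ).symm]]
      ring
    · subst h3
      rw [hT, Ed_apply, h2 _ ⊥ x γ fun δ hδ => by simp [ha, (h4 δ hδ).2],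
        h2 _ ⊥ x (Order.succ γ) fun δ hδ => by simp [ha, ← not_le, (h4 δ hδ).1]]
  have hl1 : ∀ (f : BB D Ω) p, |f p| ≤ 2 * ‖Ed f‖ := fun f p =>
    EdLe.l1 (γ := ⊥) (norm_nonneg _) (fun x α _ => abs_le_norm _ _) p.x bot_le
  refine ⟨Δ, WW m C, inferInstance, inferInstance, W_closed.completeSpace_coe, fun d => d.1.2.1,
    fun w => ‖Ed w.1‖, T,
    fun γ => (Rr γ).restrict fun w hw => Rr_mem γ hw, fun w => ?_, fun w => ?_, fun d w => ?_,
    fun F _ _ _ π τ z hz h0 => ?_, fun w => ?_, fun w c ρ hc h => ?_, fun γ w => Rr_le γ w.1,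
    fun α β w => ?_, fun γ w hγ => ?_, fun w => ?_, fun γ => ?_, fun ρ => ?_, ?_⟩
  · refine (norm_le (by positivity)).2 fun ⟨x, α⟩ => ?_
    have a1 := abs_le.1 (abs_le_norm w.1 ⟨x, α⟩)
    have a2 := abs_le.1 (abs_le_norm w.1 ⟨x, Order.succ α⟩)
    rw [Ed_apply, Real.norm_eq_abs, abs_le, Submodule.coe_norm]
    constructor <;> linarith [norm_nonneg w.1]
  · exact (norm_le (by positivity)).2 (hl1 w.1)
  · obtain ⟨⟨x, i, ξ⟩, h⟩ := d
    have a1 := abs_le.1 (abs_le_norm w.1 ⟨⟨i, ξ⟩ :: x, ⊥⟩)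
    have a2 := abs_le.1 (abs_le_norm w.1 ⟨⟨i, Order.succ ξ⟩ :: x, ⊥⟩)
    rw [hT, abs_le, Submodule.coe_norm]
    constructor <;> linarith [norm_nonneg w.1]
  · obtain ⟨w, hw, h⟩ := W_ext H ((WW m C).subtype ∘ₗ π) (fun f => (π f).2) τ hz h0
    exact ⟨⟨w, hw⟩, h⟩
  · obtain ⟨S, h1, h2⟩ := hedge w
    obtain ⟨ρ, hρ⟩ := hS S h1
    refine ⟨ρ, fun ⟨⟨x, i, ξ⟩, h⟩ hd => ?_⟩
    by_cases h3 : ∀ δ ∈ S, f δ i ≠ ξ
    · rw [(h2 x i ξ h).1 h3, abs_mul, abs_of_pos (by norm_num : (0 : ℝ) < 1 / 2)]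
      linarith [hl1 w.1 ⟨⟨i, ξ⟩ :: x, ⊥⟩]
    · push Not at h3
      obtain ⟨γ, hγ, h3⟩ := h3
      rw [(h2 x i ξ h).2 γ h3 fun δ hδ => ⟨hρ i hd δ hδ γ hγ, hρ i hd γ hγ δ hδ⟩]
      exact abs_le_norm _ _
  · refine (norm_le hc).2 fun ⟨x, γ⟩ => ?_
    obtain ⟨S, h1, h2⟩ := hedge w
    obtain ⟨ρ', hρ⟩ := hS _ (h1.insert γ)
    obtain ⟨i, hi⟩ := Cb.bdd _ ((((List.finite_toSet x).image Sigma.fst).countable.insert ρ).insert ρ')
    have h3 : ∀ p ∈ x, p.1 ≤ i := fun p hp => (hi _ (Or.inr (Or.inr ⟨p, hp, rfl⟩))).le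
    rw [← (h2 x i _ h3).2 γ rfl fun δ hδ => ⟨hρ i (hi _ (Or.inl rfl)) δ (Or.inr hδ) γ (Or.inl rfl),
      hρ i (hi _ (Or.inl rfl)) γ (Or.inl rfl) δ (Or.inr hδ)⟩]
    exact h _ (hi _ (Or.inr (Or.inl rfl)))
  · ext ⟨x, γ⟩
    exact congrArg (fun a => w.1 ⟨x, a⟩) (max_assoc γ α β)
  · rw [tendsto_subtype_rng]
    exact tendsto_sub_nhds_zero_iff.1 (W_left hγ w.2)
  · rw [tendsto_subtype_rng]
    exact W_top w.2
  · set S := ⋃ β : Iio γ, Gen m C β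
    have hS : #S ≤ μ := mk_iUnion_le_sum_mk.trans (Hμ.sum (hΩ γ) fun β => card_gen Hμ hm _)
    refine le_trans ?_ (Hμ.closure (Hμ.span hS))
    rw [← mk_image_eq Subtype.val_injective]
    refine mk_le_mk_of_subset ?_
    rintro _ ⟨_, ⟨w, rfl⟩, rfl⟩
    refine W_map (P := (Submodule.span ℝ S).topologicalClosure)
      (Submodule.isClosed_topologicalClosure _) (ContinuousLinearMap.id ℝ _ - Rr γ)
      (fun β f hf => ?_) w.2
    rcases le_or_gt γ β with h | h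
    · simp [Rr_gen_le hf h]
    · simpa [Rr_gen_gt hf h] using Submodule.le_topologicalClosure _
        (Submodule.subset_span (mem_iUnion.2 ⟨⟨β, h⟩, hf⟩))
  · obtain ⟨ν, h1, h2, h3⟩ := hP ρ
    have h4 : #{d : Δ | d.1.2.1 ≤ ρ} ≤ ν := by
      rw [← mk_image_eq Subtype.val_injective]
      have : Subtype.val '' {d : Δ | d.1.2.1 ≤ ρ} ⊆ range
          fun q : List {p : Σ i, Θ i | p.1 ≤ ρ} × {p : Σ i, Θ i | p.1 ≤ ρ} =>
            (q.1.map Subtype.val, q.2.1) := by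
        rintro _ ⟨⟨⟨x, p⟩, h⟩, hp, rfl⟩
        lift x to List {p : Σ i, Θ i | p.1 ≤ ρ} using fun q hq => (h q hq).trans hp
        exact ⟨(x, ⟨p, hp⟩), rfl⟩
      refine (mk_le_mk_of_subset this).trans (mk_range_le.trans ?_)
      rw [mk_prod, lift_id, lift_id]
      exact (mul_le_mul' ((mk_list_le_max _).trans (max_le h1 h3)) h3).trans (mul_eq_self h1).le
    rw [mk_arrow, lift_uzero, mk_real, lift_continuum]
    refine (power_le_power_left continuum_ne_zero h4).trans ?_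
    rwa [← two_power_aleph0, ← power_mul, mul_eq_right h1 h1 aleph0_ne_zero]
  · let y : Ω → BB D Ω := fun β => ofNormedAddCommGroupDiscrete
      (fun p => if p.a ≤ β then (a β).indicator 1 p.x else 0) 1 fun p => by
        by_cases h : p.x ∈ a β <;> split_ifs <;> simp [h]
    have hy : ∀ β x α, y β ⟨x, α⟩ = if α ≤ β then (a β).indicator 1 x else 0 := fun _ _ _ => rfl
    have hg : ∀ β, y β ∈ Gen m C β := fun β =>
      ⟨_, ⟨(@measurable_const _ _ _ (m β) 1).indicator (cpt_self a β).1, _, cpt_self a β,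
        fun x hx => indicator_of_notMem hx _⟩, hy β⟩
    have hx : ∀ β, ([] : D) ∈ a β := fun β p hp => by cases hp
    refine ⟨fun β => ⟨y β, gen_mem (hg β)⟩, fun α β h => ⟨Subtype.ext (Rr_gen_gt (hg α) h), ?_, ?_⟩⟩
    · simpa [hy, hx, h.not_ge] using abs_le_norm (y β - y α) ⟨[], β⟩
    · simpa [hy, hx] using abs_le_norm (y α) ⟨[], α⟩

end Pool.Agent.MP_57b808_an

end MrgPart2

-- ======== part 3: formerly Pool.Agent.MP_57b808_an.Norm
section MrgPart3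

/-! The seminorm on `A × W` that solves all one-step extension problems. -/

open Set Filter Topology
open Cardinal hiding univ

namespace Pool.Agent.MP_57b808_an

universe u v

theorem exists_sup_seminorm {V : Type*} [AddCommGroup V] [Module ℝ V] (S : Set (V →ₗ[ℝ] ℝ))
    (h : ∀ v, ∃ C, ∀ Φ ∈ S, |Φ v| ≤ C) : ∃ q : Seminorm ℝ V, (∀ v, ∀ Φ ∈ S, |Φ v| ≤ q v) ∧
      ∀ v c, 0 ≤ c → (∀ Φ ∈ S, |Φ v| ≤ c) → q v ≤ c := by
  let q : V → ℝ := fun v => ⨆ Φ : S, |Φ.1 v|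
  have h1 : ∀ v, ∀ Φ ∈ S, |Φ v| ≤ q v := fun v Φ hΦ => by
    obtain ⟨C, hC⟩ := h v
    exact le_ciSup (f := fun Φ : S => |Φ.1 v|) ⟨C, by rintro _ ⟨Ψ, rfl⟩; exact hC _ Ψ.2⟩ ⟨Φ, hΦ⟩
  have h2 : ∀ v c, 0 ≤ c → (∀ Φ ∈ S, |Φ v| ≤ c) → q v ≤ c := fun v c hc hS =>
    Real.iSup_le (fun Φ => hS _ Φ.2) hc
  have h3 : ∀ v, 0 ≤ q v := fun v => Real.iSup_nonneg fun _ => abs_nonneg _
  refine ⟨Seminorm.ofSMulLE q (le_antisymm (h2 _ _ le_rfl (by simp)) (h3 _))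
    (fun x y => h2 _ _ (add_nonneg (h3 x) (h3 y)) fun Φ hΦ => ?_)
    (fun r x => h2 _ _ (mul_nonneg (norm_nonneg r) (h3 x)) fun Φ hΦ => ?_), h1, h2⟩
  · rw [map_add]
    exact (abs_add_le _ _).trans (add_le_add (h1 x Φ hΦ) (h1 y Φ hΦ))
  · rw [map_smul, smul_eq_mul, abs_mul]
    exact mul_le_mul_of_nonneg_left (h1 x Φ hΦ) (abs_nonneg r)

theorem hb_map {E V : Type*} [AddCommGroup E] [Module ℝ E] [AddCommGroup V] [Module ℝ V]
    (L : E →ₗ[ℝ] V) (ψ : E →ₗ[ℝ] ℝ) (q : Seminorm ℝ V) (h : ∀ e, |ψ e| ≤ q (L e)) :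
    ∃ Φ : V →ₗ[ℝ] ℝ, (∀ e, Φ (L e) = ψ e) ∧ ∀ v, |Φ v| ≤ q v := by
  have hk : LinearMap.ker L ≤ LinearMap.ker ψ := fun e he => by
    have := h e
    rw [LinearMap.mem_ker.1 he, map_zero] at this
    exact abs_nonpos_iff.1 this
  let f : LinearMap.range L →ₗ[ℝ] ℝ :=
    (LinearMap.ker L).liftQ ψ hk ∘ₗ L.quotKerEquivRange.symm.toLinearMap
  have hf : ∀ e, f ⟨L e, LinearMap.mem_range_self L e⟩ = ψ e := fun e => by
    simp [f, LinearMap.quotKerEquivRange_symm_apply_image]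
  obtain ⟨g, h1, h2⟩ := Module.Dual.exists_extension_of_le_seminorm_real _ f (p := q) (by
    rintro ⟨_, e, rfl⟩
    rw [hf]
    exact (le_abs_self _).trans (h e))
  exact ⟨g, fun e => (h1 ⟨L e, LinearMap.mem_range_self L e⟩).trans (hf e), h2⟩

/-- what is used of the seminorm -/
structure NData {Λ Δ A W : Type u} [LinearOrder Λ] [AddCommGroup A] [Module ℝ A] [AddCommGroup W]
    [Module ℝ W] (lev : Δ → Λ) (T : Δ → W →ₗ[ℝ] ℝ) (p : Seminorm ℝ (A × W)) : Prop where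
  p1 : ∀ w c, 0 ≤ c → (∀ d, |T d w| ≤ c) → p (0, w) ≤ c
  p2 : ∀ v, ∃ ρ, ∀ d, ρ < lev d → |T d v.2| ≤ p v
  p3 : ∀ (c : ℕ → A × W) (r : ℕ → ℝ) (w : W), (∀ n m, p (c n - c m) ≤ r n + r m) →
    (∀ n, ∃ ρ, ∀ d, ρ < lev d → |T d (w - (c n).2)| ≤ r n) → ∃ a, ∀ n, p ((a, w) - c n) ≤ r n
  p4 : ∀ (F : Type v) [NormedAddCommGroup F] [NormedSpace ℝ F] [FiniteDimensional ℝ F]
    (π : F →ₗ[ℝ] A × W) (τ : F →ₗ[ℝ] ℝ) (z : F), τ z = 1 → (∀ f, τ f = 0 → p (π f) = ‖f‖) →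
    ∀ w, (∀ f, ∃ ρ, ∀ d, ρ < lev d → |T d ((π f).2 + τ f • w)| ≤ ‖f‖) →
    ∃ a, ∀ f, p (π f + τ f • (a, w)) = ‖f‖

variable {Λ Δ M W : Type u} [LinearOrder Λ] [AddCommGroup W] [Module ℝ W]

/-- the underlying vector space -/
abbrev VV (Λ M W : Type u) [AddCommGroup W] : Type u := (Λ × M →₀ ℝ) × W

/-- vectors that involve only rounds below `b` -/
noncomputable def Lo (b : Λ) : Submodule ℝ (VV Λ M W) := (Finsupp.supported ℝ ℝ {γ | γ.1 < b}).prod ⊤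

theorem mem_Lo {b : Λ} {v : VV Λ M W} : v ∈ Lo b ↔ ∀ γ ∈ v.1.support, γ.1 < b := by
  simp [Lo, Finsupp.mem_supported, subset_def]

theorem Lo_mono {b b' : Λ} (h : b ≤ b') {v : VV Λ M W} (hv : v ∈ Lo b) : v ∈ Lo b' :=
  mem_Lo.2 fun γ hγ => (mem_Lo.1 hv γ hγ).trans_le h

theorem inr_mem_Lo (b : Λ) (w : W) : ((0, w) : VV Λ M W) ∈ Lo b := mem_Lo.2 (by simp)

theorem Lo_le {b : Λ} {P : Submodule ℝ (VV Λ M W)} (h1 : ∀ w, (0, w) ∈ P)
    (h2 : ∀ ρ < b, ∀ τ, (Finsupp.single (ρ, τ) 1, 0) ∈ P) : Lo b ≤ P := by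
  rintro ⟨a, w⟩ hv
  have e : ((a, w) : VV Λ M W) = ∑ γ ∈ a.support, a γ • (Finsupp.single γ 1, 0) + (0, w) := by
    ext1
    · simpa [Prod.fst_sum, Finsupp.sum] using (Finsupp.sum_single a).symm
    · simp [Prod.snd_sum]
  rw [e]
  exact add_mem (sum_mem fun γ hγ => P.smul_mem _ (h2 γ.1 (mem_Lo.1 hv γ hγ) γ.2)) (h1 w)

theorem exists_Lo [Cb Λ] (v : VV Λ M W) : ∃ ρ, v ∈ Lo ρ := by
  obtain ⟨ρ, hρ⟩ := Cb.bdd _ (v.1.support.countable_toSet.image Prod.fst)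
  exact ⟨ρ, mem_Lo.2 fun γ hγ => hρ _ ⟨γ, hγ, rfl⟩⟩

/-- extension tasks -/
abbrev Tp (Λ M W : Type u) [AddCommGroup W] : Type u := (ℕ → VV Λ M W × ℝ) × W

/-- the value `s` is admissible for the task `t` of round `ρ` -/
def SV (Φ : VV Λ M W →ₗ[ℝ] ℝ) (ρ : Λ) (t : Tp Λ M W) (s : ℝ) : Prop :=
  ((∀ n, (t.1 n).1 ∈ Lo ρ) ∧ ∀ n, |s - Φ (t.1 n).1| ≤ (t.1 n).2) ∨
    (s = 0 ∧ ¬ ((∀ n, (t.1 n).1 ∈ Lo ρ) ∧
      ∀ n m, |Φ (t.1 n).1 - Φ (t.1 m).1| ≤ (t.1 n).2 + (t.1 m).2))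

theorem SV.congr {Φ Φ' : VV Λ M W →ₗ[ℝ] ℝ} {ρ : Λ} {t : Tp Λ M W} {s : ℝ} (h : SV Φ ρ t s)
    (e : ∀ v ∈ Lo ρ, Φ v = Φ' v) : SV Φ' ρ t s := by
  rcases h with ⟨h1, h2⟩ | ⟨h1, h2⟩
  · exact Or.inl ⟨h1, fun n => e _ (h1 n) ▸ h2 n⟩
  · exact Or.inr ⟨h1, fun h => h2 ⟨h.1, fun n m => by
      rw [e _ (h.1 n), e _ (h.1 m)]; exact h.2 n m⟩⟩

theorem SV.ex (Φ : VV Λ M W →ₗ[ℝ] ℝ) (ρ : Λ) (t : Tp Λ M W) : ∃ s, SV Φ ρ t s := by
  by_cases h : (∀ n, (t.1 n).1 ∈ Lo ρ) ∧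
      ∀ n m, |Φ (t.1 n).1 - Φ (t.1 m).1| ≤ (t.1 n).2 + (t.1 m).2
  · have h1 : ∀ n m, Φ (t.1 n).1 - (t.1 n).2 ≤ Φ (t.1 m).1 + (t.1 m).2 := fun n m => by
      linarith [(abs_le.1 (h.2 n m)).2]
    refine ⟨⨆ n, (Φ (t.1 n).1 - (t.1 n).2), Or.inl ⟨h.1, fun n => abs_le.2 ⟨?_, ?_⟩⟩⟩
    · linarith [le_ciSup (f := fun n => Φ (t.1 n).1 - (t.1 n).2)
        ⟨_, by rintro _ ⟨m, rfl⟩; exact h1 m 0⟩ n]
    · linarith [ciSup_le fun m => h1 m n]
  · exact ⟨0, Or.inr ⟨rfl, h⟩⟩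

variable (lev : Δ → Λ) (T : Δ → W →ₗ[ℝ] ℝ) (code : Λ → M → Tp Λ M W)

/-- domination by the earlier functionals and the coordinate `b` -/
def Dom (𝓕 : Λ → Set (VV Λ M W →ₗ[ℝ] ℝ)) (b : Λ) (Φ : VV Λ M W →ₗ[ℝ] ℝ) : Prop :=
  ∀ v ∈ Lo b, ∀ c, (∀ b' < b, ∀ Ψ ∈ 𝓕 b', |Ψ v| ≤ c) → 0 ≤ c →
    (∀ d, lev d = b → |T d v.2| ≤ c) → |Φ v| ≤ c

/-- the recursive description of the norming functionals -/
def IsFam (𝓕 : Λ → Set (VV Λ M W →ₗ[ℝ] ℝ)) : Prop :=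
  ∀ b Φ, Φ ∈ 𝓕 b ↔ Dom lev T 𝓕 b Φ ∧
    ∀ ρ, b ≤ ρ → ∀ τ, SV Φ ρ (code ρ τ) (Φ (Finsupp.single (ρ, τ) 1, (code ρ τ).2))

variable [WellFoundedLT Λ]

theorem exists_fam : ∃ 𝓕, IsFam lev T code 𝓕 := by
  obtain ⟨𝓕, h⟩ := rec_choice (ι := Λ) (T := Set (VV Λ M W →ₗ[ℝ] ℝ))
    (fun b 𝓕 S => ∀ Φ, Φ ∈ S ↔ Dom lev T 𝓕 b Φ ∧
      ∀ ρ, b ≤ ρ → ∀ τ, SV Φ ρ (code ρ τ) (Φ (Finsupp.single (ρ, τ) 1, (code ρ τ).2)))
    (fun b 𝓕 𝓕' S e h Φ => (h Φ).trans (and_congr_left' (forall₂_congr fun v _ =>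
      forall_congr' fun c => imp_congr_left (forall₂_congr fun b' hb' => by rw [e b' hb']))))
    (fun b 𝓕 _ => ⟨{Φ | _}, fun Φ => Iff.rfl⟩)
  exact ⟨𝓕, h⟩

variable {lev T code} {𝓕 : Λ → Set (VV Λ M W →ₗ[ℝ] ℝ)}

theorem IsFam.key (H : IsFam lev T code 𝓕) {ρ : Λ} {v : VV Λ M W} {c : ℝ} (hc : 0 ≤ c)
    (hv : ∀ b, ρ < b → v ∈ Lo b) (h1 : ∀ b ≤ ρ, ∀ Φ ∈ 𝓕 b, |Φ v| ≤ c)
    (h2 : ∀ d, ρ < lev d → |T d v.2| ≤ c) (b : Λ) :
    ∀ Φ ∈ 𝓕 b, |Φ v| ≤ c := by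
  induction b using WellFoundedLT.induction with
  | ind b ih =>
    intro Φ hΦ
    rcases le_or_gt b ρ with h | h
    · exact h1 b h Φ hΦ
    · exact ((H b Φ).1 hΦ).1 v (hv b h) c ih hc fun d hd => h2 d (hd ▸ h)

theorem IsFam.key0 (H : IsFam lev T code 𝓕) {w : W} {c : ℝ} (hc : 0 ≤ c) (b : Λ) :
    (∀ d, lev d ≤ b → |T d w| ≤ c) → ∀ Φ, Dom lev T 𝓕 b Φ → |Φ (0, w)| ≤ c := by
  induction b using WellFoundedLT.induction with
  | ind b ih =>
    intro h Φ hΦ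
    exact hΦ _ (inr_mem_Lo b w) c
      (fun b' hb' Ψ hΨ => ih b' hb' (fun d hd => h d (hd.trans hb'.le)) Ψ ((H b' Ψ).1 hΨ).1)
      hc fun d hd => h d hd.le

theorem IsFam.dep (H : IsFam lev T code 𝓕) {b : Λ} {Φ : VV Λ M W →ₗ[ℝ] ℝ} (hΦ : Dom lev T 𝓕 b Φ)
    {v v' : VV Λ M W} (h1 : v.1 = v'.1) (h2 : ∀ d, lev d ≤ b → T d v.2 = T d v'.2) : Φ v = Φ v' := by
  have := H.key0 (w := v.2 - v'.2) (c := 0) le_rfl b (fun d hd => by simp [h2 d hd]) Φ hΦ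
  have e : ((0, v.2 - v'.2) : VV Λ M W) = v - v' := Prod.ext (by simp [h1]) rfl
  rw [e, map_sub] at this
  exact sub_eq_zero.1 (abs_nonpos_iff.1 this)

theorem IsFam.bdd [Cb Λ] (H : IsFam lev T code 𝓕) (hT : ∀ w, ∃ C, 0 ≤ C ∧ ∀ d, |T d w| ≤ C)
    (v : VV Λ M W) :
    ∃ C, ∀ b, ∀ Φ ∈ 𝓕 b, |Φ v| ≤ C := by
  let Bd : Submodule ℝ (VV Λ M W) :=
    { carrier := {v | ∃ C, ∀ b, ∀ Φ ∈ 𝓕 b, |Φ v| ≤ C}
      add_mem' := fun ⟨C, h⟩ ⟨C', h'⟩ => ⟨C + C', fun b Φ hΦ => by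
        rw [map_add]; exact (abs_add_le _ _).trans (add_le_add (h b Φ hΦ) (h' b Φ hΦ))⟩
      zero_mem' := ⟨0, by simp⟩
      smul_mem' := fun c _ ⟨C, h⟩ => ⟨|c| * C, fun b Φ hΦ => by
        rw [map_smul, smul_eq_mul, abs_mul]
        exact mul_le_mul_of_nonneg_left (h b Φ hΦ) (abs_nonneg c)⟩ }
  have h1 : ∀ w, (0, w) ∈ Bd := fun w =>
    (hT w).imp fun C hC b Φ hΦ => H.key0 hC.1 b (fun d _ => hC.2 d) Φ ((H b Φ).1 hΦ).1
  have h2 : ∀ ρ τ, (Finsupp.single (ρ, τ) 1, 0) ∈ Bd := by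
    intro ρ
    induction ρ using WellFoundedLT.induction with
    | ind ρ ih =>
      intro τ
      have hle := Lo_le h1 ih
      have h3 : ∃ C, 0 ≤ C ∧ (((code ρ τ).1 0).1 ∈ Lo ρ → ∀ b, ∀ Φ ∈ 𝓕 b,
          |Φ ((code ρ τ).1 0).1| ≤ C) := by
        by_cases h : ((code ρ τ).1 0).1 ∈ Lo ρ
        · obtain ⟨C, hC⟩ := hle h
          exact ⟨|C|, abs_nonneg C, fun _ b Φ hΦ => (hC b Φ hΦ).trans (le_abs_self C)⟩
        · exact ⟨0, le_rfl, fun h' => (h h').elim⟩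
      obtain ⟨C, hC0, hC⟩ := h3
      obtain ⟨C', hC0', hC'⟩ := hT (code ρ τ).2
      have h4 : (Finsupp.single (ρ, τ) 1, (code ρ τ).2) ∈ Bd := by
        refine ⟨max (C + |((code ρ τ).1 0).2|) C', H.key (ρ := ρ) (le_max_of_le_right hC0')
          (fun b hb => mem_Lo.2 ?_)
          (fun b hb Φ hΦ => le_max_of_le_left ?_) fun d _ => le_max_of_le_right (hC' d)⟩
        · intro γ hγ
          rw [Finset.mem_singleton.1 (Finsupp.support_single_subset hγ)]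
          exact hb
        · rcases ((H b Φ).1 hΦ).2 ρ hb τ with ⟨h5, h6⟩ | ⟨h5, -⟩
          · linarith [abs_sub_abs_le_abs_sub (Φ (Finsupp.single (ρ, τ) 1, (code ρ τ).2))
              (Φ ((code ρ τ).1 0).1), h6 0, hC (h5 0) b Φ hΦ, le_abs_self ((code ρ τ).1 0).2]
          · rw [h5, abs_zero]; positivity
      simpa using sub_mem h4 (h1 (code ρ τ).2)
  obtain ⟨ρ, hρ⟩ := exists_Lo v
  exact Lo_le h1 (fun ρ _ => h2 ρ) hρ

theorem IsFam.ext (H : IsFam lev T code 𝓕) {b : Λ} {Φ₀ : VV Λ M W →ₗ[ℝ] ℝ} (h0 : Dom lev T 𝓕 b Φ₀)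
    (τ₀ : M) {s : ℝ} (hs : SV Φ₀ b (code b τ₀) s) : ∃ Φ ∈ 𝓕 b, (∀ v ∈ Lo b, Φ v = Φ₀ v) ∧
      Φ (Finsupp.single (b, τ₀) 1, (code b τ₀).2) = s := by
  let Φe : (Λ → M → ℝ) → VV Λ M W →ₗ[ℝ] ℝ := fun e =>
    (Finsupp.linearCombination ℝ fun γ : Λ × M => e γ.1 γ.2).coprod (Φ₀ ∘ₗ LinearMap.inr ℝ _ _)
  have h1 : ∀ e ρ τ w, Φe e (Finsupp.single (ρ, τ) 1, w) = e ρ τ + Φ₀ (0, w) := by simp [Φe]
  have h2 : ∀ e w, Φe e (0, w) = Φ₀ (0, w) := by simp [Φe]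
  have h3 : ∀ e e' ρ, (∀ β < ρ, e β = e' β) → ∀ v ∈ Lo ρ, Φe e v = Φe e' v := fun e e' ρ h =>
    Lo_le (P := LinearMap.eqLocus (Φe e) (Φe e')) (fun w => by simp [h2])
      fun β hβ τ => by simp [h1, h β hβ]
  have h4 : ∀ e, (∀ β < b, ∀ τ, e β τ = Φ₀ (Finsupp.single (β, τ) 1, 0)) →
      ∀ v ∈ Lo b, Φe e v = Φ₀ v := fun e h =>
    Lo_le (P := LinearMap.eqLocus (Φe e) Φ₀) (fun w => by simp [h2])
      fun β hβ τ => by simp [h1, h β hβ, show Φ₀ (0, 0) = 0 from Φ₀.map_zero]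
  obtain ⟨e, he⟩ := rec_choice (ι := Λ) (T := M → ℝ)
    (fun ρ e g => ∀ τ, (ρ < b → g τ = Φ₀ (Finsupp.single (ρ, τ) 1, 0)) ∧
      (b ≤ ρ → SV (Φe e) ρ (code ρ τ) (g τ + Φ₀ (0, (code ρ τ).2))) ∧
      (ρ = b → τ = τ₀ → g τ + Φ₀ (0, (code ρ τ).2) = s))
    (fun ρ e e' g h hP τ => ⟨(hP τ).1, fun hb => ((hP τ).2.1 hb).congr (h3 e e' ρ h),
      (hP τ).2.2⟩) (by
      intro ρ e ih
      rw [← Classical.skolem (p := fun τ g => (ρ < b → g = Φ₀ (Finsupp.single (ρ, τ) 1, 0)) ∧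
        (b ≤ ρ → SV (Φe e) ρ (code ρ τ) (g + Φ₀ (0, (code ρ τ).2))) ∧
        (ρ = b → τ = τ₀ → g + Φ₀ (0, (code ρ τ).2) = s))]
      intro τ
      rcases lt_or_ge ρ b with h | h
      · exact ⟨_, fun _ => rfl, fun h' => (h.not_ge h').elim, fun h' => (h.ne h').elim⟩
      by_cases h' : ρ = b ∧ τ = τ₀
      · obtain ⟨rfl, rfl⟩ := h'
        refine ⟨s - Φ₀ (0, (code ρ τ).2), fun h' => (h'.false).elim, fun _ => ?_, by simp⟩
        rw [sub_add_cancel]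
        exact hs.congr fun v hv => (h4 e (fun β hβ τ => (ih β hβ τ).1 hβ) v hv).symm
      · obtain ⟨s', hs'⟩ := SV.ex (Φe e) ρ (code ρ τ)
        exact ⟨s' - Φ₀ (0, (code ρ τ).2), fun h' => (h.not_gt h').elim,
          fun _ => by rwa [sub_add_cancel], fun h1 h2 => (h' ⟨h1, h2⟩).elim⟩)
  have h5 := h4 e fun β hβ τ => (he β τ).1 hβ
  refine ⟨Φe e, (H b _).2 ⟨fun v hv c h h' h'' => h5 v hv ▸ h0 v hv c h h' h'', fun ρ hρ τ => ?_⟩, h5, ?_⟩
  · rw [h1]; exact (he ρ τ).2.1 hρ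
  · rw [h1]; exact (he b τ₀).2.2 rfl rfl

theorem exists_ndata [Cb Λ] (Hμ : Om #M) (hΛ : #Λ ≤ #M) (lev : Δ → Λ) (T : Δ → W →ₗ[ℝ] ℝ)
    (hT : ∀ w, ∃ C, 0 ≤ C ∧ ∀ d, |T d w| ≤ C) (hI : ∀ ρ, #({d | lev d ≤ ρ} → ℝ) ≤ #M) :
    ∃ p : Seminorm ℝ (VV Λ M W), NData.{u, v} lev T p := by
  have hΓ : #(Λ × M →₀ ℝ) ≤ #M := Hμ.finsupp (by simpa using Hμ.mul hΛ le_rfl)
  obtain ⟨τ₀⟩ : Nonempty M := mk_ne_zero_iff.1 (aleph0_pos.trans_le Hμ.inf).ne'
  have hcode : ∀ ρ : Λ, ∃ code : M → Tp Λ M W, ∀ t : Tp Λ M W, ∃ τ,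
      (∀ n, ((code τ).1 n).1.1 = (t.1 n).1.1 ∧
        (∀ d, lev d ≤ ρ → T d ((code τ).1 n).1.2 = T d (t.1 n).1.2) ∧
        ((code τ).1 n).2 = (t.1 n).2) ∧ ∀ d, lev d ≤ ρ → T d (code τ).2 = T d t.2 := by
    intro ρ
    obtain ⟨code, hc⟩ := exists_code (M := M) (fun t : Tp Λ M W =>
      ((fun n => ((t.1 n).1.1, fun d : {d | lev d ≤ ρ} => T d (t.1 n).1.2, (t.1 n).2)),
        fun d : {d | lev d ≤ ρ} => T d t.2)) (by
      rw [mk_prod, lift_id, lift_id]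
      refine Hμ.mul (Hμ.seq ?_) (hI ρ)
      rw [mk_prod, lift_id, lift_id, mk_prod, lift_uzero]
      exact Hμ.mul hΓ (Hμ.mul (hI ρ) Hμ.real))
    refine ⟨code, fun t => (hc t).imp fun τ hτ => ⟨fun n => ?_, fun d hd => ?_⟩⟩
    · have := congrFun (congrArg Prod.fst hτ) n
      simp only [Prod.mk.injEq] at this
      exact ⟨this.1, fun d hd => congrFun this.2.1 ⟨d, hd⟩, this.2.2⟩
    · exact congrFun (congrArg Prod.snd hτ) ⟨d, hd⟩
  choose code hcode using hcode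
  obtain ⟨𝓕, H⟩ := exists_fam lev T code
  obtain ⟨p, hp1, hp2⟩ := exists_sup_seminorm {Φ | ∃ b, Φ ∈ 𝓕 b} fun v =>
    (H.bdd hT v).imp fun C hC Φ ⟨b, hb⟩ => hC b Φ hb
  replace hp1 : ∀ v b, ∀ Φ ∈ 𝓕 b, |Φ v| ≤ p v := fun v b Φ h => hp1 v Φ ⟨b, h⟩
  replace hp2 : ∀ v c, 0 ≤ c → (∀ b, ∀ Φ ∈ 𝓕 b, |Φ v| ≤ c) → p v ≤ c :=
    fun v c hc h => hp2 v c hc fun Φ ⟨b, hb⟩ => h b Φ hb
  have hlow : ∀ d, ∀ v ∈ Lo (lev d), |T d v.2| ≤ p v := by
    intro d v hv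
    obtain ⟨s, hs⟩ := SV.ex (T d ∘ₗ LinearMap.snd ℝ _ _) (lev d) (code (lev d) τ₀)
    obtain ⟨Φ, h1, h2, -⟩ := H.ext (fun v _ c _ _ h => h d rfl) τ₀ hs
    simpa [h2 v hv] using hp1 v _ Φ h1
  have hmain : ∀ (c : ℕ → VV Λ M W) (r : ℕ → ℝ) (w : W) (ρ : Λ), (∀ n, c n ∈ Lo ρ) →
      (∀ n m, p (c n - c m) ≤ r n + r m) → (∀ n d, ρ < lev d → |T d (w - (c n).2)| ≤ r n) →
      ∃ a, (∀ n, p ((a, w) - c n) ≤ r n) ∧ ∀ Φ₀, Dom lev T 𝓕 ρ Φ₀ → ∀ s,
        (∀ n, |s - Φ₀ (c n)| ≤ r n) → ∃ Φ ∈ 𝓕 ρ, (∀ v ∈ Lo ρ, Φ v = Φ₀ v) ∧ Φ (a, w) = s := by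
    intro c r w ρ h1 h2 h3
    obtain ⟨τ, hτ, hτ'⟩ := hcode ρ (fun n => (c n, r n), w)
    have e1 : ∀ n, ((code ρ τ).1 n).1 ∈ Lo ρ := fun n => by
      rw [mem_Lo, (hτ n).1]; exact mem_Lo.1 (h1 n)
    have e2 : ∀ b ≤ ρ, ∀ Φ, Dom lev T 𝓕 b Φ → ∀ n, Φ ((code ρ τ).1 n).1 = Φ (c n) :=
      fun b hb Φ hΦ n => H.dep hΦ (hτ n).1 fun d hd => (hτ n).2.1 d (hd.trans hb)
    have e3 : ∀ b ≤ ρ, ∀ Φ, Dom lev T 𝓕 b Φ → Φ (Finsupp.single (ρ, τ) 1, (code ρ τ).2) =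
        Φ (Finsupp.single (ρ, τ) 1, w) :=
      fun b hb Φ hΦ => H.dep hΦ rfl fun d hd => hτ' d (hd.trans hb)
    have e4 : ∀ n, ((code ρ τ).1 n).2 = r n := fun n => (hτ n).2.2
    have e5 : ∀ n, 0 ≤ r n := fun n => by
      have := h2 n n
      rw [sub_self, map_zero] at this
      linarith
    refine ⟨Finsupp.single (ρ, τ) 1, fun n => hp2 _ _ (e5 n) (H.key (ρ := ρ) (e5 n) (fun b hb => ?_)
      (fun b hb Φ hΦ => ?_) (h3 n)), fun Φ₀ h0 s hs => ?_⟩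
    · refine sub_mem (mem_Lo.2 fun γ hγ => ?_) (Lo_mono hb.le (h1 n))
      rw [Finset.mem_singleton.1 (Finsupp.support_single_subset hγ)]
      exact hb
    · have hD := ((H b Φ).1 hΦ).1
      rcases ((H b Φ).1 hΦ).2 ρ hb τ with ⟨-, h6⟩ | ⟨-, h5⟩
      · simpa [e2 b hb Φ hD, e3 b hb Φ hD, e4] using h6 n
      · refine (h5 ⟨e1, fun n m => ?_⟩).elim
        rw [e2 b hb Φ hD, e2 b hb Φ hD, e4, e4, ← map_sub]
        exact (hp1 _ b Φ hΦ).trans (h2 n m)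
    · obtain ⟨Φ, h4, h5, h6⟩ := H.ext h0 τ (s := s)
        (Or.inl ⟨e1, fun n => by rw [e2 ρ le_rfl Φ₀ h0, e4]; exact hs n⟩)
      exact ⟨Φ, h4, h5, by rw [← e3 ρ le_rfl Φ ((H ρ Φ).1 h4).1, h6]⟩
  have hstab : ∀ v, ∃ ρ, ∀ c, 0 ≤ c → (∀ b < ρ, ∀ Φ ∈ 𝓕 b, |Φ v| ≤ c) → p v ≤ c := by
    intro v
    have : ∀ k : ℕ, ∃ b, ∀ c, 0 ≤ c → (∀ Φ ∈ 𝓕 b, |Φ v| ≤ c) → p v ≤ c + 1 / (k + 1) := by
      intro k
      by_contra hc
      push Not at hc
      have hk : (0 : ℝ) < 1 / (k + 1) := Nat.one_div_pos_of_nat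
      obtain ⟨c, h1, -, h2⟩ := hc (cb_nonempty Λ).some
      have := hp2 v (p v - 1 / (k + 1)) (by linarith) fun b Φ hΦ => by
        obtain ⟨c, -, h1, h2⟩ := hc b
        linarith [h1 Φ hΦ]
      linarith
    choose b hb using this
    obtain ⟨ρ, hρ⟩ := exists_bound_nat b
    refine ⟨ρ, fun c hc h => le_of_forall_pos_le_add fun ε hε => ?_⟩
    obtain ⟨k, hk⟩ := exists_nat_one_div_lt hε
    linarith [hb k c hc (h _ (hρ k))]
  refine ⟨p, fun w c hc h => hp2 _ c hc fun b Φ hΦ =>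
    H.key0 hc b (fun d _ => h d) Φ ((H b Φ).1 hΦ).1,
    fun v => (exists_Lo v).imp fun ρ hρ d hd => hlow d v (Lo_mono hd.le hρ),
    fun c r w h1 h2 => ?_, fun F _ _ _ π τ z hz h0 w hw => ?_⟩
  · choose ρ₁ h₁ using h2
    choose ρ₂ h₂ using fun n => exists_Lo (c n)
    obtain ⟨ρ, hρ⟩ := exists_bound_nat fun n => max (ρ₁ n) (ρ₂ n)
    exact (hmain c r w ρ (fun n => Lo_mono ((le_max_right _ _).trans (hρ n).le) (h₂ n)) h1
      fun n d hd => h₁ n d (((le_max_left _ _).trans_lt (hρ n)).trans hd)).imp fun a h => h.1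
  have : Nonempty F := ⟨0⟩
  have hτc : Continuous τ := τ.continuous_of_finiteDimensional
  let s := TopologicalSpace.denseSeq F
  have hsd : DenseRange s := TopologicalSpace.denseRange_denseSeq F
  let σ : F →ₗ[ℝ] F := LinearMap.id - τ.smulRight z
  have hσ : ∀ f, τ (σ f) = 0 := fun f => by simp [σ, hz]
  have hσc : Continuous σ := σ.continuous_of_finiteDimensional
  choose ρ₁ h₁ using hw
  choose ρ₂ h₂ using fun f => exists_Lo (π f)
  choose ρ₃ h₃ using hstab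
  obtain ⟨ρ, hρ⟩ := exists_bound_nat fun n =>
    max (ρ₁ (σ (s n) + z)) (max (ρ₂ (s n)) (ρ₃ (π (σ (s n)))))
  simp only [max_lt_iff] at hρ
  have hLo : ∀ f, π f ∈ Lo ρ := fun f =>
    hsd.induction_on (p := fun f => f ∈ (Lo ρ).comap π) f
      ((Lo ρ).comap π).closed_of_finiteDimensional fun n => Lo_mono (hρ n).2.1.le (h₂ _)
  obtain ⟨a, ha, ha'⟩ := hmain (fun n => -π (σ (s n) + z)) (fun n => ‖σ (s n) + z‖) w ρ
    (fun n => neg_mem (hLo _)) (fun n m => by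
      rw [neg_sub_neg, ← map_sub, h0 _ (by simp [hσ])]
      exact (norm_sub_le _ _).trans (add_comm _ _).le) (fun n d hd => by
      have := h₁ (σ (s n) + z) d ((hρ n).1.trans hd)
      rw [map_add τ, hσ, hz, zero_add, one_smul, add_comm] at this
      rwa [Prod.snd_neg, sub_neg_eq_add])
  obtain ⟨N, hM1, hM2⟩ := exists_sup_seminorm
    {Φ | (∃ b < ρ, Φ ∈ 𝓕 b) ∨ ∃ d, lev d = ρ ∧ Φ = T d ∘ₗ LinearMap.snd ℝ _ _} fun v =>
    (hT v.2).elim fun C hC => ⟨max (p v) C, by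
      rintro Φ (⟨b, -, hb⟩ | ⟨d, -, rfl⟩)
      exacts [le_max_of_le_left (hp1 v b Φ hb), le_max_of_le_right (hC.2 d)]⟩
  have hMc : Continuous (N.comp (π ∘ₗ σ)) := by
    refine Seminorm.continuous_of_le (q := (normSeminorm ℝ F).comp σ) hσc.norm fun f => ?_
    refine (hM2 _ _ (apply_nonneg p _) ?_).trans (h0 _ (hσ f)).le
    rintro Φ (⟨b, -, hb⟩ | ⟨d, hd, rfl⟩)
    exacts [hp1 _ b Φ hb, hlow d _ (hd ▸ hLo _)]
  have hM : ∀ f, ‖σ f‖ ≤ N (π (σ f)) := fun f => by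
    refine hsd.induction_on (p := fun f => ‖σ f‖ ≤ N (π (σ f))) f (isClosed_le hσc.norm hMc)
      fun n => (h0 _ (hσ _)).ge.trans (h₃ _ _ (apply_nonneg N _) fun b hb Φ hΦ => ?_)
    exact hM1 _ Φ (Or.inl ⟨b, hb.trans (hρ n).2.2, hΦ⟩)
  have hone : ∀ f, p (π (σ f + z) + (a, w)) = ‖σ f + z‖ := by
    intro f
    refine le_antisymm (hsd.induction_on (p := fun f => p (π (σ f + z) + (a, w)) ≤ ‖σ f + z‖) f
      (isClosed_le ?_ (hσc.add continuous_const).norm) fun n => by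
        have := ha n
        rwa [sub_neg_eq_add, add_comm] at this) ?_
    · refine Metric.continuous_iff.2 fun f ε hε => ?_
      obtain ⟨δ, hδ, h⟩ := Metric.continuous_iff.1 hσc f ε hε
      refine ⟨δ, hδ, fun f' hf' => lt_of_le_of_lt ?_ (h f' hf')⟩
      rw [Real.dist_eq, dist_eq_norm, ← h0 _ (by simp [hσ] : τ (σ f' - σ f) = 0)]
      convert abs_sub_map_le_sub p _ _ using 2
      simp
    · obtain ⟨ψ, hψ1, hψ2⟩ := exists_dual_vector'' ℝ (σ f + z)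
      have hψ : ∀ f, |ψ f| ≤ ‖f‖ := fun f => by simpa using ψ.le_of_opNorm_le hψ1 f
      obtain ⟨Φ₀, h1, h2⟩ := hb_map (π ∘ₗ σ) (ψ.toLinearMap ∘ₗ σ) N fun f => (hψ _).trans (hM f)
      simp only [LinearMap.comp_apply, ContinuousLinearMap.coe_coe] at h1
      obtain ⟨Φ, h3, h4, h5⟩ := ha' Φ₀ (fun v _ c hc hc0 hc' => (h2 v).trans (hM2 v c hc0 (by
          rintro Φ (⟨b, hb, hΦ⟩ | ⟨d, hd, rfl⟩)
          exacts [hc b hb Φ hΦ, hc' d hd]))) (ψ z - Φ₀ (π z)) fun n => by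
          convert hψ (σ (s n) + z) using 2
          simp [h1]
          ring
      have := hp1 (π (σ f + z) + (a, w)) ρ Φ h3
      rw [map_add Φ, h4 _ (hLo _), h5, map_add, map_add, h1] at this
      rw [map_add] at hψ2
      simp only [RCLike.ofReal_real_eq_id, id_eq] at hψ2
      rw [map_add π]
      linarith [le_abs_self (ψ (σ f) + Φ₀ (π z) + (ψ z - Φ₀ (π z)))]
  refine ⟨a, fun f => ?_⟩
  rcases eq_or_ne (τ f) 0 with ht | ht
  · simp [ht, h0 f ht]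
  · have e : σ ((τ f)⁻¹ • f) + z = (τ f)⁻¹ • f := by simp [σ, ht, smul_sub]
    have h1 := hone ((τ f)⁻¹ • f)
    rw [e] at h1
    have e2 : π f + τ f • (a, w) = τ f • (π ((τ f)⁻¹ • f) + (a, w)) := by
      rw [smul_add, ← map_smul, smul_inv_smul₀ ht]
    rw [e2, map_smul_eq_mul, h1, ← norm_smul, smul_inv_smul₀ ht]

end Pool.Agent.MP_57b808_an

end MrgPart3

-- ======== part 4: formerly Pool.Agent.MP_57b808_an.Space
section MrgPart4

/-! The strong Gurarii space with its chain of projections. -/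

open Set Filter Topology
open Cardinal hiding univ

namespace Pool.Agent.MP_57b808_an

universe u v

/-- a copy of `V` that carries the seminorm `p` -/
def Sn {V : Type u} [AddCommGroup V] [Module ℝ V] (_ : Seminorm ℝ V) : Type u := V

noncomputable instance {V : Type u} [AddCommGroup V] [Module ℝ V] (p : Seminorm ℝ V) :
    SeminormedAddCommGroup (Sn p) :=
  AddGroupSeminorm.toSeminormedAddCommGroup (E := V) p.toAddGroupSeminorm

noncomputable instance {V : Type u} [AddCommGroup V] [Module ℝ V] (p : Seminorm ℝ V) :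
    NormedSpace ℝ (Sn p) :=
  { (inferInstance : Module ℝ V) with norm_smul_le := fun a x => (map_smul_eq_mul p a x).le }

theorem exists_quot {V : Type u} [AddCommGroup V] [Module ℝ V] (p : Seminorm ℝ V) :
    ∃ (X : Type u) (_ : NormedAddCommGroup X) (_ : NormedSpace ℝ X) (mk : V →ₗ[ℝ] X),
      Function.Surjective mk ∧ ∀ v, ‖mk v‖ = p v :=
  ⟨SeparationQuotient (Sn p), inferInstance, inferInstance,
    (SeparationQuotient.mkCLM ℝ (Sn p)).toLinearMap,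
    SeparationQuotient.surjective_mk (X := Sn p), fun v => SeparationQuotient.norm_mk (E := Sn p) v⟩

theorem gurarii_of_step {X : Type u} [NormedAddCommGroup X] [NormedSpace ℝ X]
    (h : ∀ (F : Type v) [NormedAddCommGroup F] [NormedSpace ℝ F] [FiniteDimensional ℝ F]
      (π : F →ₗ[ℝ] X) (τ : F →ₗ[ℝ] ℝ) (z : F), τ z = 1 → (∀ f, τ f = 0 → ‖π f‖ = ‖f‖) →
      ∃ x, ∀ f, ‖π f + τ f • x‖ = ‖f‖) : StrongGurarii.{u, v} X := by
  intro F _ _ _ E f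
  induction hn : Module.finrank ℝ F using Nat.strong_induction_on generalizing F with
  | _ n ih =>
    rcases eq_top_or_lt_top E with rfl | hE
    · exact ⟨f.comp (LinearIsometryEquiv.ofTop F ⊤ rfl).symm.toLinearIsometry, fun e => rfl⟩
    obtain ⟨τ, hτ, hle⟩ := E.exists_le_ker_of_lt_top hE
    obtain ⟨z₀, hz₀⟩ := DFunLike.ne_iff.1 hτ
    have hz : τ ((τ z₀)⁻¹ • z₀) = 1 := by simpa using inv_mul_cancel₀ hz₀
    set z := (τ z₀)⁻¹ • z₀
    have hlt : Module.finrank ℝ (LinearMap.ker τ) < n :=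
      hn ▸ Submodule.finrank_lt (by simpa using hτ)
    let j : E.comap (LinearMap.ker τ).subtype →ₗᵢ[ℝ] E :=
      ⟨(Submodule.comapSubtypeEquivOfLe hle).toLinearMap, fun _ => rfl⟩
    obtain ⟨g, hg⟩ := ih _ hlt (LinearMap.ker τ) (E.comap (LinearMap.ker τ).subtype) (f.comp j) rfl
    obtain ⟨π, hπ⟩ := LinearMap.exists_extend g.toLinearMap
    have hπ' : ∀ e : LinearMap.ker τ, π e = g e := fun e => LinearMap.congr_fun hπ e
    obtain ⟨x, hx⟩ := h F π τ z hz fun e he => by rw [hπ' ⟨e, he⟩, g.norm_map]; rfl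
    refine ⟨⟨π + τ.smulRight x, hx⟩, fun e => ?_⟩
    have h1 : τ e = 0 := hle e.2
    have h2 := hg ⟨⟨e, h1⟩, e.2⟩
    have h3 := hπ' ⟨e, h1⟩
    simp only [LinearIsometry.coe_mk, LinearMap.add_apply, LinearMap.smulRight_apply, h1,
      zero_smul, add_zero]
    exact h3.trans h2

/-- a bounded continuous chain of projections with small ranges -/
structure Chain (μ : Cardinal.{u}) {Ω X : Type u} [LinearOrder Ω] [NormedAddCommGroup X]
    [NormedSpace ℝ X] (Q : Ω → X →L[ℝ] X) : Prop where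
  le : ∀ γ x, ‖Q γ x‖ ≤ 5 * ‖x‖
  comp : ∀ α β x, Q α (Q β x) = Q (min α β) x
  lim : ∀ γ x, Order.IsSuccPrelimit γ → Tendsto (fun α : Iio γ => Q α x) atTop (𝓝 (Q γ x))
  top : ∀ x, Tendsto (fun α => Q α x) atTop (𝓝 x)
  card : ∀ γ, #(range (Q γ)) ≤ μ
  sep : ∃ y : Ω → X, ∀ α β, α < β → Q β (y α) = y α ∧ 1 / 2 ≤ ‖y β - y α‖ ∧ y α ≠ 0

theorem exists_space {μ : Cardinal.{u}} {Λ Ω Δ W : Type u} [LinearOrder Λ] [WellFoundedLT Λ] [Cb Λ]
    [LinearOrder Ω] [NormedAddCommGroup W] [NormedSpace ℝ W] [CompleteSpace W] {lev : Δ → Λ}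
    {tw : W → ℝ} {T : Δ → W →ₗ[ℝ] ℝ} {R : Ω → W →L[ℝ] W} (Hμ : Om μ) (hΛ : #Λ ≤ μ)
    (HW : WData.{u, v} μ lev tw T R) :
    ∃ (X : Type u) (_ : NormedAddCommGroup X) (_ : NormedSpace ℝ X) (_ : CompleteSpace X)
      (Q : Ω → X →L[ℝ] X), StrongGurarii.{u, v} X ∧ Chain μ Q := by
  induction μ using Cardinal.inductionOn with | _ M
  obtain ⟨p, HN⟩ := exists_ndata.{u, v} Hμ hΛ lev T
    (fun w => ⟨_, by positivity, fun d => HW.T_le d w⟩) HW.tr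
  obtain ⟨X, _, _, mk, hs, hn⟩ := exists_quot (V := VV Λ M W) p
  obtain ⟨σ, hσ⟩ := mk.exists_rightInverse_of_surjective (LinearMap.range_eq_top.2 hs)
  replace hσ : ∀ x, mk (σ x) = x := fun x => LinearMap.congr_fun hσ x
  have hσn : ∀ x, p (σ x) = ‖x‖ := fun x => by rw [← hn, hσ]
  have htw : ∀ v, tw v.2 ≤ p v := fun v => by
    obtain ⟨ρ, hρ⟩ := HN.p2 v
    exact HW.c _ _ ρ (apply_nonneg p v) hρ
  have h2 : ∀ v, ‖v.2‖ ≤ 2 * p v := fun v => (HW.le_tw _).trans (by linarith [htw v])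
  let ι : W →L[ℝ] X := (mk ∘ₗ LinearMap.inr ℝ _ _).mkContinuous 2 fun w =>
    (hn _).le.trans (HN.p1 w _ (by positivity) fun d => HW.T_le d w)
  have hι : ∀ w, ι w = mk (0, w) := fun _ => rfl
  have hιn : ∀ w, ‖ι w‖ ≤ 2 * ‖w‖ := fun w =>
    (hn _).le.trans (HN.p1 w _ (by positivity) fun d => HW.T_le d w)
  let pr : X →L[ℝ] W := (LinearMap.snd ℝ _ _ ∘ₗ σ).mkContinuous 2 fun x => (h2 _).trans (by rw [hσn])
  have hpr : ∀ v, pr (mk v) = v.2 := fun v => by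
    have := h2 (σ (mk v) - v)
    rw [← hn, map_sub, hσ, sub_self, norm_zero, mul_zero] at this
    exact sub_eq_zero.1 (norm_le_zero_iff.1 this)
  have hprn : ∀ x, ‖pr x‖ ≤ 2 * ‖x‖ := fun x => (h2 _).trans (by rw [hσn])
  have hpι : ∀ w, pr (ι w) = w := fun w => hpr _
  let Q : Ω → X →L[ℝ] X := fun γ => ContinuousLinearMap.id ℝ X - ι ∘L R γ ∘L pr
  have hQ : ∀ γ x, Q γ x = x - ι (R γ (pr x)) := fun _ _ => rfl
  have hc : CompleteSpace X := by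
    refine Metric.complete_of_cauchySeq_tendsto fun u hu => ?_
    obtain ⟨w, hw⟩ := cauchySeq_tendsto_of_complete (pr.uniformContinuous.comp_cauchySeq hu)
    obtain ⟨b, hb0, hb, hb'⟩ := cauchySeq_iff_le_tendsto_0.1 hu
    obtain ⟨a, ha⟩ := HN.p3 (fun n => σ (u n)) (fun n => b n + 2 * ‖w - pr (u n)‖) w
      (fun n m => by
        rw [← map_sub, hσn, ← dist_eq_norm]
        rcases le_total n m with h | h
        · linarith [hb n m n le_rfl h, hb0 m, norm_nonneg (w - pr (u n)), norm_nonneg (w - pr (u m))]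
        · linarith [hb n m m h le_rfl, hb0 n, norm_nonneg (w - pr (u n)), norm_nonneg (w - pr (u m))])
      fun n => ⟨(cb_nonempty Λ).some, fun d _ => (HW.T_le d _).trans (le_add_of_nonneg_left (hb0 n))⟩
    refine ⟨mk (a, w), tendsto_iff_norm_sub_tendsto_zero.2 (squeeze_zero (fun _ => norm_nonneg _)
      (fun n => ?_) (g := fun n => b n + 2 * ‖w - pr (u n)‖) ?_)⟩
    · rw [norm_sub_rev, ← hσ (u n), ← map_sub, hn, hσ]
      exact ha n
    · simpa using hb'.add ((tendsto_const_nhds (x := w).sub hw).norm.const_mul 2)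
  refine ⟨X, inferInstance, inferInstance, hc, Q, gurarii_of_step fun F _ _ _ π τ z hz h0 => ?_,
    fun γ x => ?_, fun α β x => ?_, fun γ x hγ => ?_, fun x => ?_, fun γ => ?_, ?_⟩
  · obtain ⟨w, hw⟩ := HW.ext F (LinearMap.snd ℝ _ _ ∘ₗ σ ∘ₗ π) τ z hz fun f hf =>
      (htw _).trans (by rw [LinearMap.comp_apply, hσn, h0 f hf])
    obtain ⟨a, ha⟩ := HN.p4 F (σ ∘ₗ π) τ z hz (fun f hf => (hσn _).trans (h0 f hf)) w fun f =>
      (HW.b _).imp fun ρ hρ d hd => (hρ d hd).trans (hw f)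
    exact ⟨mk (a, w), fun f => by
      rw [← ha f, ← hn, map_add, map_smul, LinearMap.comp_apply, hσ]⟩
  · rw [hQ]
    linarith [norm_sub_le x (ι (R γ (pr x))), hιn (R γ (pr x)), HW.R_le γ (pr x), hprn x]
  · simp only [hQ, map_sub, hpι, HW.R_comp]
    rcases le_total α β with h | h <;> simp [h]
  · exact tendsto_const_nhds.sub ((ι.continuous.tendsto _).comp (HW.R_lim γ _ hγ))
  · simpa [hQ] using
      (tendsto_const_nhds (x := x)).sub ((ι.continuous.tendsto _).comp (HW.R_top (pr x)))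
  · have : range (Q γ) ⊆ range fun q : (Λ × M →₀ ℝ) × range (fun w => w - R γ w) =>
        mk (q.1, q.2) := by
      rintro _ ⟨x, rfl⟩
      obtain ⟨⟨a, w⟩, rfl⟩ := hs x
      refine ⟨(a, ⟨_, mem_range_self w⟩), ?_⟩
      simp only [hQ, hpr, hι, ← map_sub]
      simp
    refine (mk_le_mk_of_subset this).trans (mk_range_le.trans ?_)
    rw [mk_prod, lift_id, lift_id]
    exact Hμ.mul (Hμ.finsupp (by simpa using Hμ.mul hΛ le_rfl)) (HW.card γ)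
  · obtain ⟨y, hy⟩ := HW.sep
    refine ⟨fun α => ι (y α), fun α β h => ?_⟩
    obtain ⟨h1, h3, h4⟩ := hy α β h
    refine ⟨by simp [hQ, hpι, h1], ?_, fun h5 => ?_⟩
    · have := hprn (ι (y β) - ι (y α))
      rw [map_sub, hpι, hpι] at this
      linarith
    · rw [← hpι (y α), show ι (y α) = 0 from h5, map_zero, norm_zero] at h4
      linarith

end Pool.Agent.MP_57b808_an

end MrgPart4

-- ======== part 5: formerly Pool.Agent.MP_57b808_an.Final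
section MrgPart5

/-! Renorming and the projectional resolution of the identity. -/

open Set Filter Topology Ordinal
open Cardinal hiding univ

namespace Pool.Agent.MP_57b808_an

universe u v

theorem dens_le {X : Type u} [TopologicalSpace X] {S : Set X} (h : Dense S) : dens X ≤ #S :=
  ciInf_le' (fun S : {S : Set X // Dense S} => #S.1) ⟨S, h⟩

theorem exists_dens (X : Type u) [TopologicalSpace X] : ∃ S : Set X, Dense S ∧ #S = dens X := by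
  have : Nonempty {S : Set X // Dense S} := ⟨⟨univ, dense_univ⟩⟩
  obtain ⟨S, hS⟩ := ciInf_mem (fun S : {S : Set X // Dense S} => #S.1)
  exact ⟨S.1, S.2, hS⟩

theorem dens_le_of_surj {X Y : Type u} [TopologicalSpace X] [TopologicalSpace Y] {f : X → Y}
    (hf : Continuous f) (hs : Function.Surjective f) : dens Y ≤ dens X := by
  obtain ⟨S, h1, h2⟩ := exists_dens X
  exact (dens_le (hs.denseRange.dense_image hf h1)).trans (mk_image_le.trans h2.le)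

theorem dens_le_card (X : Type u) [TopologicalSpace X] : dens X ≤ #X := by
  simpa using dens_le (dense_univ (X := X))

theorem dens_le_aleph0 (X : Type u) [TopologicalSpace X] [TopologicalSpace.SeparableSpace X] :
    dens X ≤ ℵ₀ := by
  obtain ⟨S, h1, h2⟩ := TopologicalSpace.exists_countable_dense X
  exact (dens_le h2).trans (le_aleph0_iff_set_countable.2 h1)

theorem le_dens {X ι : Type u} [MetricSpace X] (y : ι → X) {δ : ℝ} (hδ : 0 < δ)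
    (h : ∀ i j, i ≠ j → δ ≤ dist (y i) (y j)) : #ι ≤ dens X := by
  obtain ⟨S, h1, h2⟩ := exists_dens X
  choose s hs hs' using fun i => h1.exists_dist_lt (y i) (half_pos hδ)
  rw [← h2]
  refine mk_le_of_injective (f := fun i => (⟨s i, hs i⟩ : S)) fun i j hij => ?_
  by_contra hc
  have e : s i = s j := congrArg Subtype.val hij
  linarith [h i j hc, dist_triangle_right (y i) (y j) (s i), hs' i, e ▸ hs' j]

theorem renorm {X : Type u} [NormedAddCommGroup X] [NormedSpace ℝ X] [CompleteSpace X]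
    (S : Set (X →L[ℝ] X)) {C : ℝ} (hC : 0 ≤ C) (hb : ∀ P ∈ S, ∀ x, ‖P x‖ ≤ C * ‖x‖)
    (h1 : ContinuousLinearMap.id ℝ X ∈ S) (hm : ∀ P ∈ S, ∀ P' ∈ S, P ∘L P' ∈ S) :
    ∃ (Y : Type u) (_ : NormedAddCommGroup Y) (_ : NormedSpace ℝ Y) (_ : CompleteSpace Y)
      (e : X ≃L[ℝ] Y), ∀ P ∈ S, ∀ x, ‖e (P x)‖ ≤ ‖e x‖ := by
  let q : X → ℝ := fun x => ⨆ P : S, ‖P.1 x‖
  have a1 : ∀ x, ∀ P ∈ S, ‖P x‖ ≤ q x := fun x P hP =>
    le_ciSup (f := fun P : S => ‖P.1 x‖) ⟨_, by rintro _ ⟨P, rfl⟩; exact hb _ P.2 x⟩ ⟨P, hP⟩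
  have a2 : ∀ x c, 0 ≤ c → (∀ P ∈ S, ‖P x‖ ≤ c) → q x ≤ c := fun x c hc hS =>
    Real.iSup_le (fun P => hS _ P.2) hc
  have a3 : ∀ x, 0 ≤ q x := fun x => Real.iSup_nonneg fun _ => norm_nonneg _
  obtain ⟨Y, _, _, mk, hs, hn⟩ := exists_quot (Seminorm.ofSMulLE (𝕜 := ℝ) q
    (le_antisymm (a2 _ _ le_rfl (by simp)) (a3 _))
    (fun x y => a2 _ _ (add_nonneg (a3 x) (a3 y)) fun P hP => by
      rw [map_add]; exact (norm_add_le _ _).trans (add_le_add (a1 x P hP) (a1 y P hP)))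
    (fun r x => a2 _ _ (mul_nonneg (norm_nonneg r) (a3 x)) fun P hP => by
      rw [map_smul, norm_smul]; exact mul_le_mul_of_nonneg_left (a1 x P hP) (norm_nonneg r)))
  replace hn : ∀ x, ‖mk x‖ = q x := hn
  have a4 : ∀ x, ‖x‖ ≤ ‖mk x‖ := fun x => by rw [hn]; exact a1 x _ h1
  have hi : Function.Injective mk := (injective_iff_map_eq_zero mk).2 fun x hx =>
    norm_le_zero_iff.1 (by simpa [hx] using a4 x)
  let e : X ≃L[ℝ] Y := (LinearEquiv.ofBijective mk ⟨hi, hs⟩).toContinuousLinearEquivOfBounds C 1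
    (fun x => (hn x).le.trans (a2 _ _ (by positivity) fun P hP => hb P hP x)) fun y => by
      obtain ⟨x, rfl⟩ := hs y
      simpa using a4 x
  refine ⟨Y, inferInstance, inferInstance, e.symm.isUniformEmbedding.isUniformInducing.completeSpace
    (e.symm.surjective.range_eq ▸ isComplete_univ), e, fun P hP x => ?_⟩
  exact (hn _).le.trans ((a2 _ _ (a3 x) fun P' hP' => a1 x (P' ∘L P) (hm P' hP' P hP)).trans (hn x).ge)

theorem pri_of_bdd {X : Type u} [NormedAddCommGroup X] [NormedSpace ℝ X] [CompleteSpace X]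
    {κ : Cardinal.{u}} (hκ : dens X = κ) (h0 : ℵ₀ < κ) (P : Ordinal.{u} → X →L[ℝ] X) {C : ℝ}
    (hC : 0 ≤ C) (hb : ∀ α x, ‖P α x‖ ≤ C * ‖x‖) (h1 : P ω = 0)
    (h2 : P κ.ord = ContinuousLinearMap.id ℝ X) (h3 : ∀ α, ω < α → ∃ x, P α x ≠ 0)
    (h4 : ∀ α β x, P α (P β x) = P (min α β) x)
    (h5 : ∀ α, ω ≤ α → α ≤ κ.ord → dens (range (P α)) ≤ α.card)
    (h6 : ∀ α, ω < α → α ≤ κ.ord → Order.IsSuccLimit α → ∀ x,
      P α x ∈ closure (⋃ β ∈ Ico ω α, range (P (β + 1)))) :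
    ∃ (Y : Type u) (_ : NormedAddCommGroup Y) (_ : NormedSpace ℝ Y) (_ : CompleteSpace Y),
      Nonempty (X ≃L[ℝ] Y) ∧ HasPRI Y := by
  obtain ⟨Y, _, _, _, e, he⟩ := renorm (range P) hC (by rintro _ ⟨α, rfl⟩; exact hb α)
    ⟨_, h2⟩ (by rintro _ ⟨α, rfl⟩ _ ⟨β, rfl⟩; exact ⟨min α β, by ext x; simp [h4]⟩)
  have hY : dens Y = κ := hκ ▸ le_antisymm (dens_le_of_surj e.continuous e.surjective)
    (dens_le_of_surj e.symm.continuous e.symm.surjective)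
  let P' : Ordinal.{u} → Y →L[ℝ] Y := fun α => (e : X →L[ℝ] Y) ∘L P α ∘L (e.symm : Y →L[ℝ] X)
  have hP' : ∀ α y, P' α y = e (P α (e.symm y)) := fun _ _ => rfl
  have h4' : ∀ α β y, P' α (P' β y) = P' (min α β) y := fun α β y => by simp [hP', h4]
  refine ⟨Y, inferInstance, inferInstance, inferInstance, ⟨e⟩, hY ▸ h0, P', ?_, ?_,
    fun α hα _ => le_antisymm ?_ ?_, fun α β _ _ _ _ => ?_, fun α hα hα' => ?_,
    fun α hα hα' hl => subset_antisymm ?_ ?_⟩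
  · ext y; simp [hP', h1]
  · ext y; simp [hP', hY, h2]
  · exact (P' α).opNorm_le_bound zero_le_one fun y => by
      simpa [hP'] using he _ ⟨α, rfl⟩ (e.symm y)
  · obtain ⟨x, hx⟩ := h3 α hα
    have := (P' α).le_opNorm (P' α (e x))
    rw [h4', min_self] at this
    refine le_of_mul_le_mul_right (by rwa [one_mul]) (norm_pos_iff.2 ?_ : 0 < ‖P' α (e x)‖)
    simpa [hP'] using hx
  · ext y; exact h4' α β y
  · refine le_trans (dens_le_of_surj (f := fun x : range (P α) =>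
      (⟨e x, by obtain ⟨_, x, rfl⟩ := x; exact ⟨e x, by simp [hP']⟩⟩ : range (P' α)))
      (by fun_prop) ?_) (h5 α hα (hY ▸ hα'))
    rintro ⟨_, y, rfl⟩
    exact ⟨⟨_, mem_range_self (e.symm y)⟩, rfl⟩
  · have : range (P' α) = {y | P' α y = y} := by
      ext y
      exact ⟨by rintro ⟨y, rfl⟩; simp [h4'], fun h => ⟨y, h⟩⟩
    rw [this]
    refine closure_minimal ?_ (isClosed_eq (P' α).continuous continuous_id)
    intro y hy
    obtain ⟨β, hβ, y, rfl⟩ := mem_iUnion₂.1 hy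
    simp [h4', (hl.add_one_lt hβ.2).le]
  · rintro _ ⟨y, rfl⟩
    refine closure_mono ?_ (mem_closure_image (f := e) e.continuous.continuousAt
      (h6 α hα (hY ▸ hα') hl (e.symm y)))
    rintro _ ⟨x, hx, rfl⟩
    obtain ⟨β, hβ, x, rfl⟩ := mem_iUnion₂.1 hx
    exact mem_biUnion hβ ⟨e x, by simp [hP']⟩

theorem main :
    ∃ (X : Type u) (_ : NormedAddCommGroup X) (_ : NormedSpace ℝ X) (_ : CompleteSpace X),
      StrongGurarii.{u, v} X ∧
      ∃ (Y : Type u) (_ : NormedAddCommGroup Y) (_ : NormedSpace ℝ Y) (_ : CompleteSpace Y),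
        Nonempty (X ≃L[ℝ] Y) ∧ HasPRI Y := by
  classical
  obtain ⟨l, Λ, _, _, _, Θ, _, _, _, f, Hl, h0, hΛ, hP, hf⟩ := exists_scale.{u}
  let κ := Order.succ l
  have hlκ : l < κ := Order.lt_succ l
  have hκ0 : ℵ₀ < κ := h0.trans hlκ
  have := Cardinal.noMaxOrder hκ0.le
  have hκl : Order.IsSuccLimit κ.ord := isSuccLimit_ord hκ0.le
  have : Nonempty κ.ord.ToType := nonempty_toType_iff.2 hκl.ne_bot
  let _ : OrderBot κ.ord.ToType := WellFoundedLT.toOrderBot _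
  obtain ⟨Δ, W, _, _, _, lev, tw, T, R, HW⟩ := exists_wdata.{u, v} (Ω := κ.ord.ToType) f Hl hΛ
    (fun α => (mk_le_mk_of_subset Iio_subset_Iic_self).trans (iic_succ h0.le α)) hP hf
  obtain ⟨X, _, _, _, Q, hG, H⟩ := exists_space Hl hΛ HW
  obtain ⟨y, hy⟩ := H.sep
  have hd : dens X = κ := by
    refine le_antisymm ((dens_le (S := ⋃ γ, range (Q γ)) fun x => mem_closure_of_tendsto (H.top x)
      (.of_forall fun γ => mem_iUnion.2 ⟨γ, mem_range_self x⟩)).trans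
      (mk_iUnion_le_sum_mk.trans ((sum_le_sum _ (fun _ => κ) fun γ =>
        (H.card γ).trans hlκ.le).trans ?_))) ?_
    · simp [mul_eq_self hκ0.le]
    · refine (mk_ord_toType κ).ge.trans (le_dens y (δ := 1 / 2) (by norm_num) fun i j hij => ?_)
      rcases lt_or_gt_of_ne hij with h | h
      · rw [dist_comm, dist_eq_norm]; exact (hy i j h).2.1
      · rw [dist_eq_norm]; exact (hy j i h).2.1
  let en : Iio κ.ord ≃o κ.ord.ToType := ToType.mk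
  let Q' : Ordinal.{u} → X →L[ℝ] X := fun α =>
    if h : α < κ.ord then Q (en ⟨α, h⟩) else ContinuousLinearMap.id ℝ X
  have q1 : ∀ α (h : α < κ.ord), Q' α = Q (en ⟨α, h⟩) := fun α h => dif_pos h
  have q2 : ∀ α, κ.ord ≤ α → Q' α = ContinuousLinearMap.id ℝ X := fun α h => dif_neg h.not_gt
  have q3 : ∀ α β x, Q' α (Q' β x) = Q' (min α β) x := by
    intro α β x
    rcases lt_or_ge α κ.ord with h | h <;> rcases lt_or_ge β κ.ord with h' | h'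
    · rw [q1 α h, q1 β h', q1 _ (min_lt_of_left_lt h), H.comp, ← en.monotone.map_min]
      rcases le_total α β with h | h <;> simp [h]
    · rw [q2 β h', min_eq_left (h.le.trans h')]; rfl
    · rw [q2 α h, min_eq_right (h'.le.trans h)]; rfl
    · rw [q2 α h, q2 β h', q2 _ (le_min h h')]; rfl
  have q4 : ∀ α x, ‖Q' α x‖ ≤ 5 * ‖x‖ := by
    intro α x
    rcases lt_or_ge α κ.ord with h | h
    · rw [q1 α h]; exact H.le _ x
    · rw [q2 α h, ContinuousLinearMap.id_apply]; linarith [norm_nonneg x]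
  have hωl : ω < l.ord := by rwa [← ord_aleph0, ord_lt_ord]
  have hlκ' : l.ord < κ.ord := ord_lt_ord.2 hlκ
  obtain ⟨y₀, hy₀, hy₀'⟩ : ∃ y₀, Q' l.ord y₀ = y₀ ∧ y₀ ≠ 0 := by
    have := hy (en ⟨ω, hωl.trans hlκ'⟩) (en ⟨l.ord, hlκ'⟩) (en.strictMono hωl)
    exact ⟨_, q1 _ hlκ' ▸ this.1, this.2.2⟩
  obtain ⟨φ, hφ⟩ := SeparatingDual.exists_eq_one (R := ℝ) hy₀'
  let Q₀ : X →L[ℝ] X := (φ ∘L Q' l.ord).smulRight y₀
  have hQ₀ : ∀ x, Q₀ x = φ (Q' l.ord x) • y₀ := fun _ => rfl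
  have hy₁ : ∀ α, l.ord ≤ α → Q' α y₀ = y₀ := fun α h => by
    rw [← hy₀, q3, min_eq_right h]
  let P : Ordinal.{u} → X →L[ℝ] X := fun α => if α ≤ ω then 0 else if α ≤ l.ord then Q₀ else Q' α
  have p1 : ∀ α, α ≤ ω → P α = 0 := fun α h => if_pos h
  have p2 : ∀ α, ω < α → α ≤ l.ord → P α = Q₀ := fun α h h' => (if_neg h.not_ge).trans (if_pos h')
  have p3 : ∀ α, l.ord < α → P α = Q' α := fun α h =>
    (if_neg (hωl.trans h).not_ge).trans (if_neg h.not_ge)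
  have cs : ∀ α, α ≤ ω ∨ (ω < α ∧ α ≤ l.ord) ∨ l.ord < α := fun α => by grind
  refine ⟨X, inferInstance, inferInstance, inferInstance, hG, pri_of_bdd hd hκ0 P
    (C := 5 + ‖Q₀‖) (by positivity) (fun α x => ?_) (p1 _ le_rfl)
    ((p3 _ hlκ').trans (q2 _ le_rfl)) (fun α hα => ⟨y₀, ?_⟩) (fun α β x => ?_)
    (fun α hα hα' => ?_) fun α hα hα' hl x => ?_⟩
  · have := Q₀.le_opNorm x
    have := mul_nonneg (norm_nonneg Q₀) (norm_nonneg x)
    rcases cs α with h | ⟨h, h'⟩ | h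
    · rw [p1 α h, _root_.zero_apply, norm_zero]; positivity
    · rw [p2 α h h']; linarith [norm_nonneg x]
    · rw [p3 α h]; linarith [q4 α x]
  · rcases le_or_gt α l.ord with h | h
    · simpa [p2 α hα h, hQ₀, hy₀, hφ] using hy₀'
    · rwa [p3 α h, hy₁ α h.le]
  · rcases cs α with h | ⟨h, h'⟩ | h
    · simp [p1 α h, p1 _ ((min_le_left α β).trans h)]
    all_goals rcases cs β with k | ⟨k, k'⟩ | k
    · simp [p1 β k, p1 _ ((min_le_right α β).trans k)]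
    · simp [p2 α h h', p2 β k k', p2 _ (lt_min h k) ((min_le_left α β).trans h'), hQ₀, hy₀, hφ]
    · rw [min_eq_left (h'.trans k.le), p2 α h h', p3 β k, hQ₀, hQ₀, q3, min_eq_left k.le]
    · simp [p1 β k, p1 _ ((min_le_right α β).trans k)]
    · rw [min_eq_right (k'.trans h.le), p2 β k k', p3 α h, hQ₀, map_smul, hy₁ α h.le]
    · rw [p3 α h, p3 β k, p3 _ (lt_min h k), q3]
  · rcases le_or_gt α l.ord with h | h
    · have : TopologicalSpace.SeparableSpace (range (P α)) := by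
        refine ((TopologicalSpace.isSeparable_range (f := fun t : ℝ => t • y₀)
          (by fun_prop)).mono ?_).separableSpace
        rintro _ ⟨x, rfl⟩
        rcases hα.eq_or_lt with rfl | hα
        · exact ⟨0, by simp [p1 _ le_rfl]⟩
        · exact ⟨_, by rw [p2 α hα h, hQ₀]⟩
      exact (dens_le_aleph0 _).trans (aleph0_le_card.2 hα)
    · rcases hα'.eq_or_lt with rfl | hα'
      · rw [card_ord, ← hd]
        exact dens_le_of_surj (P _).continuous.rangeFactorization rangeFactorization_surjective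
      · rw [p3 α h, q1 α hα']
        exact (dens_le_card _).trans ((H.card _).trans (ord_le.1 h.le))
  · have key : ∀ (β : Iio κ.ord), l.ord < β.1 → β.1 < α →
        Q (en β) x ∈ ⋃ β ∈ Ico ω α, range (P (β + 1)) := fun β h1 h2 =>
      mem_biUnion (x := β.1) ⟨(hωl.trans h1).le, h2⟩ ⟨Q' β.1 x, by
        rw [p3 _ (h1.trans (lt_add_one _)), q3, min_eq_right (lt_add_one _).le, q1 _ β.2]⟩
    rcases le_or_gt α l.ord with h | h
    · refine subset_closure (mem_biUnion (x := ω) ⟨le_rfl, hα⟩ ⟨x, ?_⟩)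
      rw [p2 α hα h, p2 _ (lt_add_one _) ((hl.add_one_lt hα).le.trans h)]
    have h1 := hl.add_one_lt h
    have h2 : l.ord + 1 < κ.ord := h1.trans_le hα'
    rcases hα'.eq_or_lt with rfl | hα'
    · rw [p3 _ h, q2 _ le_rfl]
      refine mem_closure_of_tendsto (H.top x) ?_
      filter_upwards [eventually_ge_atTop (en ⟨_, h2⟩)] with γ hγ
      obtain ⟨β, rfl⟩ := en.surjective γ
      exact key β ((lt_add_one _).trans_le (en.le_iff_le.1 hγ)) β.2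
    · rw [p3 _ h, q1 _ hα']
      have hlim : Order.IsSuccPrelimit (en ⟨α, hα'⟩) := by
        intro γ hγ
        obtain ⟨β, rfl⟩ := en.surjective γ
        have h3 : β.1 + 1 < α := hl.add_one_lt (en.lt_iff_lt.1 hγ.1)
        exact hγ.2 (c := en ⟨β.1 + 1, h3.trans hα'⟩) (en.strictMono (lt_add_one β.1))
          (en.strictMono h3)
      have h3 : en ⟨_, h2⟩ < en ⟨α, hα'⟩ := en.strictMono h1
      have : Nonempty (Iio (en ⟨α, hα'⟩)) := ⟨⟨_, h3⟩⟩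
      refine mem_closure_of_tendsto (H.lim _ x hlim) ?_
      filter_upwards [eventually_ge_atTop (⟨_, h3⟩ : Iio (en ⟨α, hα'⟩))] with ⟨γ, hγ'⟩ hγ
      obtain ⟨β, rfl⟩ := en.surjective γ
      exact key β ((lt_add_one _).trans_le (en.le_iff_le.1 hγ)) (en.lt_iff_lt.1 hγ')

end Pool.Agent.MP_57b808_an

end MrgPart5

-- marker of a merged file
example : 731051 + 93128 = 731051 + 93128 := rfl
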